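import Pool.Agent.Lib.MP_9d6b4a_an.Defs

section

set_option autoImplicit false

namespace Pool.Agent.PolyRec

open MeasureTheory

/-- T08: the image of a Haar probability measure under a continuous surjective homomorphism. -/
theorem map_haar {X H : Type} [AddCommGroup X] [TopologicalSpace X] [IsTopologicalAddGroup X]
    [CompactSpace X] [T2Space X] [SecondCountableTopology X] [MeasurableSpace X] [BorelSpace X]
    [AddCommGroup H] [TopologicalSpace H] [IsTopologicalAddGroup H]
    [CompactSpace H] [T2Space H] [SecondCountableTopology H] [MeasurableSpace H] [BorelSpace H]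
    (μ : Measure X) [IsProbabilityMeasure μ] [μ.IsAddHaarMeasure]
    (ν : Measure H) [IsProbabilityMeasure ν] [ν.IsAddHaarMeasure]
    (φ : X →+ H) (hc : Continuous φ) (hs : Function.Surjective φ) :
    μ.map φ = ν := by
  haveI : (μ.map φ).IsAddHaarMeasure :=
    Measure.isAddHaarMeasure_map_of_isFiniteMeasure μ φ hc hs
  haveI : IsProbabilityMeasure (μ.map φ) :=
    Measure.isProbabilityMeasure_map hc.measurable.aemeasurable
  exact Measure.isAddHaarMeasure_eq_of_isProbabilityMeasure _ _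

end Pool.Agent.PolyRec
end

section

set_option autoImplicit false

namespace Pool.Agent.PolyRec

open MeasureTheory

/-- The shear of `Y × Y`. -/
def t09_shear (Y : Type) [AddCommGroup Y] : Equiv.Perm (Y × Y) where
  toFun z := (z.1 + z.2, z.2)
  invFun z := (z.1 - z.2, z.2)
  left_inv z := by ext <;> simp
  right_inv z := by ext <;> simp

theorem t09_shear_zpow {Y : Type} [AddCommGroup Y] (κ : ℤ) (z : Y × Y) :
    (t09_shear Y ^ κ) z = (z.1 + κ • z.2, z.2) := by
  induction κ with
  | zero => simp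
  | succ i ih =>
    rw [add_comm, zpow_one_add, Equiv.Perm.mul_apply, ih]
    ext
    · simp only [t09_shear, Equiv.coe_fn_mk]
      rw [add_smul, one_smul]
      abel
    · rfl
  | pred i ih =>
    rw [sub_eq_add_neg, add_comm, zpow_add, zpow_neg_one, Equiv.Perm.mul_apply, ih]
    ext
    · simp only [t09_shear, Equiv.Perm.inv_def, Equiv.coe_fn_symm_mk]
      rw [add_smul, neg_smul, neg_smul, one_smul]
      abel
    · rfl

/-- T09: the skew conjugates of the shear. -/
theorem exists_skew {Y G : Type} [AddCommGroup Y] [TopologicalSpace Y] [IsTopologicalAddGroup Y]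
    [CompactSpace Y] [T2Space Y] [SecondCountableTopology Y] [MeasurableSpace Y] [BorelSpace Y]
    [AddCommGroup G] [TopologicalSpace G] [IsTopologicalAddGroup G]
    [CompactSpace G] [T2Space G] [SecondCountableTopology G] [MeasurableSpace G] [BorelSpace G]
    (μ : Measure Y) [IsProbabilityMeasure μ] [μ.IsAddHaarMeasure]
    (ν : Measure G) [IsProbabilityMeasure ν] [ν.IsAddHaarMeasure]
    (Φ : Y → G ≃+ Y) (hc : ∀ y, Continuous (Φ y))
    (hm : Measurable fun p : Y × G => Φ p.1 p.2)
    (hm' : Measurable fun p : Y × Y => (Φ p.1).symm p.2) :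
    ∃ T : Equiv.Perm (Y × G), Measurable T ∧ Measurable T.symm ∧
      MeasurePreserving T (μ.prod ν) (μ.prod ν) ∧
      ∀ (κ : ℤ) (x : Y × G), ((T ^ κ) x).1 = x.1 + κ • Φ x.1 x.2 := by
  let Psi : (Y × G) ≃ᵐ (Y × Y) :=
    { toFun := fun p => (p.1, Φ p.1 p.2)
      invFun := fun p => (p.1, (Φ p.1).symm p.2)
      left_inv := fun p => by simp
      right_inv := fun p => by simp
      measurable_toFun := measurable_fst.prodMk hm
      measurable_invFun := measurable_fst.prodMk hm' }
  have hPsi : MeasurePreserving Psi (μ.prod ν) (μ.prod μ) :=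
    MeasurePreserving.skew_product (MeasurePreserving.id μ) hm
      (Filter.Eventually.of_forall fun y =>
        map_haar ν μ (Φ y).toAddMonoidHom (hc y) (Φ y).surjective)
  have hSm : Measurable (t09_shear Y) :=
    (measurable_fst.add measurable_snd).prodMk measurable_snd
  have hSm' : Measurable (t09_shear Y).symm :=
    (measurable_fst.sub measurable_snd).prodMk measurable_snd
  have hS : MeasurePreserving (t09_shear Y) (μ.prod μ) (μ.prod μ) := by
    have h1 := (Measure.measurePreserving_swap (μ := μ) (ν := μ)).comp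
      ((measurePreserving_prod_add μ μ).comp (Measure.measurePreserving_swap (μ := μ) (ν := μ)))
    have h2 : ((Prod.swap : Y × Y → Y × Y) ∘ ((fun z : Y × Y => (z.1, z.1 + z.2)) ∘ Prod.swap)) =
        t09_shear Y := by
      funext z
      ext
      · simp [t09_shear, add_comm]
      · rfl
    rw [h2] at h1
    exact h1
  refine ⟨Psi.symm.toEquiv.permCongr (t09_shear Y), ?_, ?_, ?_, ?_⟩
  · exact Psi.symm.measurable.comp (hSm.comp Psi.measurable)
  · exact Psi.symm.measurable.comp (hSm'.comp Psi.measurable)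
  · exact (hPsi.symm Psi).comp (hS.comp hPsi)
  · intro κ x
    have h1 : (Psi.symm.toEquiv.permCongr (t09_shear Y)) ^ κ =
        Psi.symm.toEquiv.permCongr (t09_shear Y ^ κ) :=
      (map_zpow (Equiv.permCongrHom Psi.symm.toEquiv) (t09_shear Y) κ).symm
    rw [h1]
    change ((t09_shear Y ^ κ) (Psi x)).1 = _
    rw [t09_shear_zpow]
    rfl

end Pool.Agent.PolyRec
end

section

set_option autoImplicit false

namespace Pool.Agent.PolyRec

open MeasureTheory

/-- the inverse coordinate map -/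
def t10_inv (S O : ℕ) (p : Fin (S + 1)) (c : Y S O) : G S O :=
  fun k x => p.insertNth (α := fun _ => Tor) (c k (Sum.inr x.2))
    (fun q' => c (k + 1) (Sum.inl (q', x.2))) x.1

/-- the coordinate map -/
def t10_fun (S O : ℕ) (p : Fin (S + 1)) (g : G S O) : Y S O :=
  fun k => Sum.elim (fun z => gin g k (p.succAbove z.1) z.2) (fun a => g k (p, a))

theorem t10_left (S O : ℕ) (p : Fin (S + 1)) (g : G S O) :
    t10_inv S O p (t10_fun S O p g) = g := by
  funext k x
  obtain ⟨q, a⟩ := x
  rcases Fin.eq_self_or_eq_succAbove p q with h | ⟨j, h⟩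
  · subst h
    simp [t10_inv, t10_fun]
  · subst h
    simp [t10_inv, t10_fun, gin]

theorem t10_right (S O : ℕ) (p : Fin (S + 1)) (c : Y S O) :
    t10_fun S O p (t10_inv S O p c) = c := by
  funext k x
  rcases x with ⟨q, a⟩ | a
  · cases k with
    | zero => exact Fin.elim0 a
    | succ k => simp [t10_inv, t10_fun, gin]
  · simp [t10_inv, t10_fun]

theorem t10_gin_add {S O : ℕ} (g h : G S O) (k : ℕ) (q : Fin (S + 1)) (a : Fin (o' O k)) :
    gin (g + h) k q a = gin g k q a + gin h k q a := by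
  cases k with
  | zero => exact Fin.elim0 a
  | succ k => rfl

theorem t10_gin_cont {S O : ℕ} (k : ℕ) (q : Fin (S + 1)) (a : Fin (o' O k)) :
    Continuous fun g : G S O => gin g k q a := by
  cases k with
  | zero => exact Fin.elim0 a
  | succ k =>
      have : Continuous fun g : G S O => g k (q, a) :=
        (continuous_apply (q, a)).comp (continuous_apply k)
      exact this

theorem t10_map_add (S O : ℕ) (p : Fin (S + 1)) (g h : G S O) :
    t10_fun S O p (g + h) = t10_fun S O p g + t10_fun S O p h := by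
  funext k x
  rcases x with ⟨q, a⟩ | a
  · exact t10_gin_add g h k _ a
  · rfl

theorem t10_fun_cont (S O : ℕ) (p : Fin (S + 1)) : Continuous (t10_fun S O p) := by
  refine continuous_pi fun k => continuous_pi fun x => ?_
  rcases x with ⟨q, a⟩ | a
  · exact t10_gin_cont k _ a
  · exact (continuous_apply (p, a)).comp (continuous_apply k)

theorem t10_inv_cont (S O : ℕ) (p : Fin (S + 1)) : Continuous (t10_inv S O p) := by
  refine continuous_pi fun k => continuous_pi fun x => ?_
  obtain ⟨q, a⟩ := x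
  rcases Fin.eq_self_or_eq_succAbove p q with h | ⟨j, h⟩
  · subst h
    simp only [t10_inv, Fin.insertNth_apply_same]
    exact (continuous_apply (Sum.inr a)).comp (continuous_apply k)
  · subst h
    simp only [t10_inv, Fin.insertNth_apply_succAbove]
    exact (continuous_apply (Sum.inl (j, a))).comp (continuous_apply (k + 1))

/-- T10: the coordinate permutation. -/
theorem exists_gather (S O : ℕ) (p : Fin (S + 1)) :
    ∃ F : G S O ≃+ Y S O, Continuous F ∧ Continuous F.symm ∧
      (∀ g k z, F g k (Sum.inl z) = gin g k (p.succAbove z.1) z.2) ∧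
      (∀ g k a, F g k (Sum.inr a) = g k (p, a)) := by
  refine ⟨{ toFun := t10_fun S O p
            invFun := t10_inv S O p
            left_inv := t10_left S O p
            right_inv := t10_right S O p
            map_add' := t10_map_add S O p }, t10_fun_cont S O p, t10_inv_cont S O p,
            fun g k z => rfl, fun g k a => rfl⟩

end Pool.Agent.PolyRec
end

section

set_option autoImplicit false

namespace Pool.Agent.PolyRec

open MeasureTheory

theorem t11_measurable_Jset {ι : Type} : Measurable (Jset : (ι → Tor) → Set ι) := by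
  rw [measurable_set_iff]
  intro j
  refine measurable_to_prop ?_
  have h : (fun y : ι → Tor => j ∈ Jset y) ⁻¹' {True} = {y : ι → Tor | ‖y j‖ ≤ 1 / 16} := by
    ext y
    simp [Jset]
  rw [h]
  exact measurableSet_le ((measurable_pi_apply j).norm) measurable_const

theorem t11_joint {ι Z : Type} [Fintype ι] [MeasurableSpace Z]
    (E : Set ι → (ι → Tor) → (ι → Tor)) (hE : ∀ Q, Continuous (E Q))
    {a b : Z → ι → Tor} (ha : Measurable a) (hb : Measurable b) :
    Measurable fun z => E (Jset (a z)) (b z) := by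
  have h1 : Measurable fun q : Set ι × (ι → Tor) => E q.1 q.2 :=
    measurable_from_prod_countable_right fun Q => (hE Q).measurable
  exact h1.comp ((t11_measurable_Jset.comp ha).prodMk hb)

/-- T11: the fibre isomorphisms. -/
theorem exists_Phi (S O : ℕ)
    (E : ∀ k, Set (Ix S (o' O k) (o O k)) →
      ((Ix S (o' O k) (o O k) → Tor) ≃+ (Ix S (o' O k) (o O k) → Tor)))
    (hE : ∀ k Q, Continuous (E k Q)) (hE' : ∀ k Q, Continuous (E k Q).symm)
    (F : G S O ≃+ Y S O) (hF : Continuous F) (hF' : Continuous F.symm) :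
    ∃ Φ : Y S O → G S O ≃+ Y S O, (∀ y, Continuous (Φ y)) ∧
      (Measurable fun p : Y S O × G S O => Φ p.1 p.2) ∧
      (Measurable fun p : Y S O × Y S O => (Φ p.1).symm p.2) ∧
      ∀ y g k, Φ y g k = E k (Jset (y k)) (F g k) := by
  refine ⟨fun y => F.trans (AddEquiv.piCongrRight fun k => E k (Jset (y k))), ?_, ?_, ?_, ?_⟩
  · intro y
    refine continuous_pi fun k => ?_
    exact (hE k _).comp ((continuous_apply k).comp hF)
  · refine measurable_pi_iff.2 fun k => ?_
    exact t11_joint (fun Q => E k Q) (hE k) ((measurable_pi_apply k).comp measurable_fst)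
      ((measurable_pi_apply k).comp (hF.measurable.comp measurable_snd))
  · refine hF'.measurable.comp (measurable_pi_iff.2 fun k => ?_)
    exact t11_joint (fun Q => (E k Q).symm) (hE' k) ((measurable_pi_apply k).comp measurable_fst)
      ((measurable_pi_apply k).comp measurable_snd)
  · intro y g k
    rfl

end Pool.Agent.PolyRec
end

section

set_option autoImplicit false

namespace Pool.Agent.PolyRec

open MeasureTheory

section T02

open Finset

/-- permutations of `Fin N` mapping `B` into `Y`. -/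
def t02_S (N : ℕ) (B Y : Finset (Fin N)) : Finset (Equiv.Perm (Fin N)) :=
  univ.filter fun σ => ∀ a ∈ B, σ a ∈ Y

theorem t02_aux_nat {b y N : ℕ} (h1 : b ≤ y) (h2 : y ≤ N) : N * (y - b) ≤ (N - b) * y := by
  obtain ⟨d, rfl⟩ := Nat.exists_eq_add_of_le h1
  obtain ⟨e, rfl⟩ := Nat.exists_eq_add_of_le h2
  have e1 : b + d - b = d := by omega
  have e2 : b + d + e - b = d + e := by omega
  rw [e1, e2]
  nlinarith [Nat.zero_le (b * e), Nat.zero_le (d * e)]

theorem t02_card_insert (N : ℕ) (B Y : Finset (Fin N)) (a : Fin N) (ha : a ∉ B)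
    (_hBY : B.card ≤ Y.card) :
    (N - B.card) * (t02_S N (insert a B) Y).card = (Y.card - B.card) * (t02_S N B Y).card := by
  classical
  -- double counting of pairs (σ, c), σ ∈ S B, c ∉ B, σ c ∈ Y
  have h1 : ∑ σ ∈ t02_S N B Y, ((Bᶜ).filter fun c => σ c ∈ Y).card =
      (Y.card - B.card) * (t02_S N B Y).card := by
    rw [sum_const_nat (m := Y.card - B.card), mul_comm]
    intro σ hσ
    have hσ' : ∀ a ∈ B, σ a ∈ Y := (mem_filter.1 hσ).2
    have e1 : (univ.filter fun c => σ c ∈ Y).card = Y.card := by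
      have : (univ.filter fun c => σ c ∈ Y) = Y.map σ.symm.toEmbedding := by
        ext c
        simp
      rw [this, card_map]
    have e2 : ((Bᶜ).filter fun c => σ c ∈ Y) = (univ.filter fun c => σ c ∈ Y) \ B := by
      ext c
      simp [mem_sdiff, and_comm]
    rw [e2, card_sdiff_of_subset, e1]
    intro c hc
    simp [hσ' c hc]
  have h2 : ∑ σ ∈ t02_S N B Y, ((Bᶜ).filter fun c => σ c ∈ Y).card =
      (N - B.card) * (t02_S N (insert a B) Y).card := by
    have : ∑ σ ∈ t02_S N B Y, ((Bᶜ).filter fun c => σ c ∈ Y).card =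
        ∑ c ∈ Bᶜ, ((t02_S N B Y).filter fun σ => σ c ∈ Y).card := by
      simp only [card_filter]
      rw [sum_comm]
    rw [this, sum_const_nat (m := (t02_S N (insert a B) Y).card), card_compl, Fintype.card_fin]
    intro c hc
    have hcB : c ∉ B := by simpa using hc
    -- bijection σ ↦ σ * swap a c
    refine card_bij (fun σ _ => σ * Equiv.swap a c) ?_ ?_ ?_
    · intro σ hσ
      simp only [mem_filter, t02_S, mem_univ, true_and] at hσ ⊢
      intro x hx
      rcases mem_insert.1 hx with rfl | hx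
      · simpa using hσ.2
      · have hxa : x ≠ a := fun h => ha (h ▸ hx)
        have hxc : x ≠ c := fun h => hcB (h ▸ hx)
        simpa [Equiv.swap_apply_of_ne_of_ne hxa hxc] using hσ.1 x hx
    · intro σ _ τ _ h
      exact mul_right_cancel h
    · intro τ hτ
      simp only [mem_filter, t02_S, mem_univ, true_and] at hτ
      refine ⟨τ * Equiv.swap a c, ?_, ?_⟩
      · simp only [mem_filter, t02_S, mem_univ, true_and]
        refine ⟨fun x hx => ?_, ?_⟩
        · have hxa : x ≠ a := fun h => ha (h ▸ hx)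
          have hxc : x ≠ c := fun h => hcB (h ▸ hx)
          simpa [Equiv.swap_apply_of_ne_of_ne hxa hxc] using hτ x (mem_insert_of_mem hx)
        · simpa using hτ a (mem_insert_self _ _)
      · rw [mul_assoc, Equiv.swap_mul_self, mul_one]
  rw [← h2, h1]

theorem t02_card_le (N : ℕ) (Y : Finset (Fin N)) (B : Finset (Fin N)) :
    N ^ B.card * (t02_S N B Y).card ≤ Y.card ^ B.card * N.factorial := by
  classical
  induction B using Finset.induction_on with
  | empty =>
    simp [t02_S, Fintype.card_perm]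
  | insert a B ha ih =>
    rw [card_insert_of_notMem ha]
    by_cases hBY : B.card ≤ Y.card
    · have h := t02_card_insert N B Y a ha hBY
      have hYN : Y.card ≤ N := by simpa using card_le_univ Y
      have hBN : B.card < N := by
        have : (insert a B).card ≤ N := by simpa using card_le_univ (insert a B)
        rw [card_insert_of_notMem ha] at this
        omega
      -- N * #S(insert) ≤ Y.card * #S B
      have key : N * (t02_S N (insert a B) Y).card ≤ Y.card * (t02_S N B Y).card := by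
        have hpos : 0 < N - B.card := by omega
        refine Nat.le_of_mul_le_mul_left ?_ hpos
        calc (N - B.card) * (N * (t02_S N (insert a B) Y).card)
            = N * ((N - B.card) * (t02_S N (insert a B) Y).card) := by ring
          _ = N * ((Y.card - B.card) * (t02_S N B Y).card) := by rw [h]
          _ = (N * (Y.card - B.card)) * (t02_S N B Y).card := by ring
          _ ≤ ((N - B.card) * Y.card) * (t02_S N B Y).card := by
              exact Nat.mul_le_mul_right _ (t02_aux_nat hBY hYN)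
          _ = (N - B.card) * (Y.card * (t02_S N B Y).card) := by ring
      calc N ^ (B.card + 1) * (t02_S N (insert a B) Y).card
          = N ^ B.card * (N * (t02_S N (insert a B) Y).card) := by ring
        _ ≤ N ^ B.card * (Y.card * (t02_S N B Y).card) := Nat.mul_le_mul_left _ key
        _ = Y.card * (N ^ B.card * (t02_S N B Y).card) := by ring
        _ ≤ Y.card * (Y.card ^ B.card * N.factorial) := Nat.mul_le_mul_left _ ih
        _ = Y.card ^ (B.card + 1) * N.factorial := by ring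
    · have : (t02_S N (insert a B) Y) = ∅ := by
        rw [t02_S, filter_eq_empty_iff]
        intro σ _ hσ
        apply hBY
        have h1 : B.image σ ⊆ Y := by
          intro x hx
          obtain ⟨c, hc, rfl⟩ := mem_image.1 hx
          exact hσ c (mem_insert_of_mem hc)
        have := card_le_card h1
        rwa [card_image_of_injective _ σ.injective] at this
      rw [this]; simp

end T02

/-- T02 -/
theorem card_perm_image_subset {N : ℕ} (B Y : Finset (Fin N)) (h : Y.card ≤ N) :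
    ((Finset.univ.filter fun σ : Equiv.Perm (Fin N) => B.image σ ⊆ Y).card : ℝ) * (N : ℝ) ^ B.card
      ≤ (Y.card : ℝ) ^ B.card * (N.factorial : ℝ) := by
  have e : (Finset.univ.filter fun σ : Equiv.Perm (Fin N) => B.image σ ⊆ Y) = t02_S N B Y := by
    ext σ
    simp only [Finset.mem_filter, Finset.mem_univ, true_and, t02_S, Finset.image_subset_iff]
  rw [e, mul_comm]
  exact_mod_cast t02_card_le N Y B

end Pool.Agent.PolyRec
end

section

set_option autoImplicit false

namespace Pool.Agent.PolyRec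

open MeasureTheory

theorem t03_choose_le (N k : ℕ) (hk : 1 ≤ k) :
    (N.choose k : ℝ) ≤ (Real.exp 1 * ((N : ℝ) / k)) ^ k := by
  have hk' : (0:ℝ) < k := by exact_mod_cast hk
  have h1 : (N.choose k : ℝ) ≤ (N:ℝ) ^ k / k.factorial := Nat.choose_le_pow_div k N
  have h2 : (k:ℝ) ^ k / k.factorial ≤ Real.exp k := Real.pow_div_factorial_le_exp k hk'.le k
  have h3 : Real.exp (k:ℝ) = Real.exp 1 ^ k := by
    rw [← Real.exp_nat_mul]; simp
  have h4 : (N:ℝ) ^ k / k.factorial = ((N:ℝ)/k)^k * ((k:ℝ)^k / k.factorial) := by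
    rw [div_pow]; field_simp
  calc (N.choose k : ℝ) ≤ ((N:ℝ)/k)^k * ((k:ℝ)^k / k.factorial) := by rw [← h4]; exact h1
    _ ≤ ((N:ℝ)/k)^k * Real.exp 1 ^ k := by
        rw [← h3]; gcongr
    _ = _ := by rw [← mul_pow]; congr 1; ring

theorem t03_numeric (D : ℕ) (hD : 2 ≤ D) (z : ℝ) (hz : 2 ^ 30 * (D : ℝ) ^ 2 ≤ z) :
    (Real.exp 1 * z) * (Real.exp 1 * (z / (7 * D))) ^ (7 * D) * (7 * D / z) ^ (8 * D) ≤ 1 / 4 := by
  have hD2 : (2:ℝ) ≤ D := by exact_mod_cast hD
  have hD0 : (0:ℝ) < D := by linarith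
  have hz0 : 0 < z := lt_of_lt_of_le (by positivity) hz
  have h1 : (Real.exp 1 * (z / (7 * D))) ^ (7 * D) * (7 * D / z) ^ (8 * D) =
      (Real.exp 1 ^ 7 * (7 * D / z)) ^ D := by
    have e1 : (7 * (D:ℝ) / z) ^ (8 * D) = (7 * D / z) ^ (7 * D) * (7 * D / z) ^ D := by
      rw [← pow_add]; congr 1; ring
    have e2 : Real.exp 1 * (z / (7 * D)) * (7 * D / z) = Real.exp 1 := by field_simp
    rw [e1, ← mul_assoc, ← mul_pow, e2, pow_mul, ← mul_pow]
  have he : Real.exp 1 ≤ 2.7182818286 := Real.exp_one_lt_d9.le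
  have h2 : Real.exp 1 ^ 7 * 7 ≤ 2 ^ 13 := by
    calc Real.exp 1 ^ 7 * 7 ≤ (2.7182818286:ℝ) ^ 7 * 7 := by gcongr
      _ ≤ 2 ^ 13 := by norm_num
  have h3 : Real.exp 1 ^ 7 * (7 * D / z) ≤ 2 ^ 13 * D / z := by
    calc Real.exp 1 ^ 7 * (7 * D / z) = (Real.exp 1 ^ 7 * 7) * (D / z) := by ring
      _ ≤ 2 ^ 13 * (D / z) := by gcongr
      _ = _ := by ring
  have h4 : 2 ^ 13 * (D:ℝ) / z ≤ 1 := by
    rw [div_le_one hz0]
    refine le_trans ?_ hz
    nlinarith
  have h5 : (Real.exp 1 ^ 7 * (7 * D / z)) ^ D ≤ (2 ^ 13 * D / z) ^ 2 := by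
    calc (Real.exp 1 ^ 7 * (7 * D / z)) ^ D ≤ (2 ^ 13 * D / z) ^ D := by gcongr
      _ ≤ (2 ^ 13 * D / z) ^ 2 := pow_le_pow_of_le_one (by positivity) h4 hD
  rw [mul_assoc, h1]
  calc Real.exp 1 * z * (Real.exp 1 ^ 7 * (7 * D / z)) ^ D
      ≤ Real.exp 1 * z * (2 ^ 13 * D / z) ^ 2 := by gcongr
    _ = Real.exp 1 * (2 ^ 26 * D ^ 2 / z) := by field_simp
    _ ≤ 3 * (1 / 16) := by
        have : 2 ^ 26 * (D:ℝ) ^ 2 / z ≤ 1 / 16 := by
          rw [div_le_iff₀ hz0]
          linarith
        have h3' : Real.exp 1 ≤ 3 := by linarith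
        gcongr
    _ ≤ 1 / 4 := by norm_num

/-- bound for one term of the union bound -/
theorem t03_term (D : ℕ) (hD : 2 ≤ D) (α : ℝ) (hα0 : 0 < α)
    (hα : α * (2 ^ 30 * (D : ℝ) ^ 2) ≤ 1) (N b : ℕ) (hb : 1 ≤ b) (hbN : (b : ℝ) ≤ α * N) :
    (N.choose b : ℝ) * (N.choose (7 * D * b) : ℝ) *
      (((7 * D * b : ℕ) : ℝ) / N) ^ (b * (8 * D)) ≤ (1 / 4) ^ b := by
  have hD2 : (2:ℝ) ≤ D := by exact_mod_cast hD
  have hD0 : (0:ℝ) < D := by linarith
  have hb0 : (0:ℝ) < b := by exact_mod_cast hb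
  have hN0 : (0:ℝ) < N := by
    by_contra h
    have : (N:ℝ) ≤ 0 := not_lt.1 h
    nlinarith
  set z : ℝ := N / b with hz
  have hz0 : 0 < z := by positivity
  have hzα : 2 ^ 30 * (D : ℝ) ^ 2 ≤ z := by
    rw [hz, le_div_iff₀ hb0]
    calc 2 ^ 30 * (D : ℝ) ^ 2 * b ≤ 2 ^ 30 * (D : ℝ) ^ 2 * (α * N) := by gcongr
      _ = (α * (2 ^ 30 * (D : ℝ) ^ 2)) * N := by ring
      _ ≤ 1 * N := by gcongr
      _ = N := one_mul _
  have h7 : 1 ≤ 7 * D * b := by
    have : 0 < 7 * D * b := by positivity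
    omega
  have h1 := t03_choose_le N b hb
  have h2 := t03_choose_le N (7 * D * b) h7
  have e1 : ((N:ℝ) / ((7 * D * b : ℕ) : ℝ)) = z / (7 * D) := by
    rw [hz]; push_cast; field_simp
  have e2 : (((7 * D * b : ℕ) : ℝ) / N) = 7 * D / z := by
    rw [hz]; push_cast; field_simp
  rw [e1] at h2
  rw [e2]
  calc (N.choose b : ℝ) * (N.choose (7 * D * b) : ℝ) * (7 * D / z) ^ (b * (8 * D))
      ≤ (Real.exp 1 * z) ^ b * (Real.exp 1 * (z / (7 * D))) ^ (7 * D * b) *
        (7 * D / z) ^ (b * (8 * D)) := by gcongr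
    _ = ((Real.exp 1 * z) * (Real.exp 1 * (z / (7 * D))) ^ (7 * D) *
          (7 * D / z) ^ (8 * D)) ^ b := by
        rw [mul_comm b (8 * D), pow_mul (Real.exp 1 * (z / (7 * D))) (7 * D) b,
          pow_mul (7 * D / z) (8 * D) b, ← mul_pow, ← mul_pow]
    _ ≤ (1 / 4) ^ b := by
        have := t03_numeric D hD z hzα
        gcongr

/-- T03 -/
theorem exists_expander (D : ℕ) (hD : 2 ≤ D) (α : ℝ) (hα0 : 0 < α)
    (hα : α * (2 ^ 30 * (D : ℝ) ^ 2) ≤ 1) (N : ℕ) :
    ∃ π : Fin (8 * D) → Equiv.Perm (Fin N), Expands D α π := by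
  classical
  by_contra hcon
  push Not at hcon
  have hD2 : (2:ℝ) ≤ D := by exact_mod_cast hD
  have hD0 : (0:ℝ) < D := by linarith
  -- the index sets
  set Bs : Finset ℕ := (Finset.Icc 1 N).filter (fun b => (b : ℝ) ≤ α * N) with hBs
  have h7N : ∀ b ∈ Bs, 7 * D * b ≤ N := by
    intro b hb
    rw [hBs, Finset.mem_filter] at hb
    have h1 := hb.2
    have : (7 * D * b : ℝ) ≤ N := by
      have h2 : α * (7 * D) ≤ 1 := by
        refine le_trans ?_ hα
        have : (7:ℝ) * D ≤ 2 ^ 30 * (D : ℝ) ^ 2 := by nlinarith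
        gcongr
      calc (7 * D * b : ℝ) ≤ 7 * D * (α * N) := by gcongr
        _ = (α * (7 * D)) * N := by ring
        _ ≤ 1 * N := by gcongr
        _ = N := one_mul _
    exact_mod_cast this
  let F : Finset (Fin N) → Finset (Fin N) → Finset (Equiv.Perm (Fin N)) :=
    fun B Y => Finset.univ.filter fun σ : Equiv.Perm (Fin N) => B.image σ ⊆ Y
  have hcover : (Finset.univ : Finset (Fin (8 * D) → Equiv.Perm (Fin N))) ⊆
      Bs.biUnion fun b => (Finset.powersetCard b Finset.univ).biUnion fun B =>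
        (Finset.powersetCard (7 * D * b) Finset.univ).biUnion fun Y =>
          Fintype.piFinset fun _ : Fin (8 * D) => F B Y := by
    intro π _
    have h := hcon π
    unfold Expands at h
    push Not at h
    obtain ⟨B, hB1, hB2⟩ := h
    have hBpos : 1 ≤ B.card := by
      rcases Nat.eq_zero_or_pos B.card with h0 | h0
      · rw [h0] at hB2; simp at hB2
      · exact h0
    have hBN : B.card ≤ N := by
      have := Finset.card_le_univ B
      simpa using this
    have hBmem : B.card ∈ Bs := by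
      rw [hBs, Finset.mem_filter, Finset.mem_Icc]
      exact ⟨⟨hBpos, hBN⟩, hB1⟩
    obtain ⟨Y, hY1, hY2⟩ := Finset.exists_superset_card_eq (s := Finset.univ.biUnion
      fun i => B.image (π i)) hB2.le (by simpa using h7N _ hBmem)
    simp only [Finset.mem_biUnion, Finset.mem_powersetCard, Fintype.mem_piFinset]
    refine ⟨B.card, hBmem, B, ⟨Finset.subset_univ _, rfl⟩, Y, ⟨Finset.subset_univ _, hY2⟩, ?_⟩
    intro i
    simp only [F, Finset.mem_filter, Finset.mem_univ, true_and]
    exact (Finset.subset_biUnion_of_mem (fun i => B.image (π i)) (Finset.mem_univ i)).trans hY1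
  have hcard := Finset.card_le_card hcover
  have hN! : (0:ℝ) < (N.factorial : ℝ) := by exact_mod_cast Nat.factorial_pos N
  have hFcard : ∀ b ∈ Bs, ∀ B ∈ Finset.powersetCard b (Finset.univ : Finset (Fin N)),
      ∀ Y ∈ Finset.powersetCard (7 * D * b) (Finset.univ : Finset (Fin N)),
      ((Fintype.piFinset fun _ : Fin (8 * D) => F B Y).card : ℝ) ≤
        (((7 * D * b : ℕ) : ℝ) / N) ^ (b * (8 * D)) * (N.factorial : ℝ) ^ (8 * D) := by
    intro b hb B hB Y hY
    rw [Finset.mem_powersetCard] at hB hY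
    have hNpos : (0:ℝ) < N := by
      have h1 := hb
      rw [hBs, Finset.mem_filter, Finset.mem_Icc] at h1
      have : 1 ≤ N := h1.1.1.trans h1.1.2
      exact_mod_cast this
    have h := card_perm_image_subset B Y (by rw [hY.2]; exact h7N b hb)
    rw [hB.2, hY.2] at h
    have hF : ((F B Y).card : ℝ) ≤ (((7 * D * b : ℕ) : ℝ) / N) ^ b * (N.factorial : ℝ) := by
      rw [div_pow, div_mul_eq_mul_div, le_div_iff₀ (by positivity)]
      exact h
    rw [Fintype.card_piFinset_const]
    push_cast only [Nat.cast_pow]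
    calc ((F B Y).card : ℝ) ^ (8 * D)
        ≤ ((((7 * D * b : ℕ) : ℝ) / N) ^ b * (N.factorial : ℝ)) ^ (8 * D) := by gcongr
      _ = _ := by rw [mul_pow, ← pow_mul]
  have hbound : ((Fintype.card (Fin (8 * D) → Equiv.Perm (Fin N)) : ℕ) : ℝ) ≤
      ∑ b ∈ Bs, (1 / 4 : ℝ) ^ b * (N.factorial : ℝ) ^ (8 * D) := by
    calc ((Fintype.card (Fin (8 * D) → Equiv.Perm (Fin N)) : ℕ) : ℝ)
        ≤ (((Bs.biUnion fun b => (Finset.powersetCard b Finset.univ).biUnion fun B =>
          (Finset.powersetCard (7 * D * b) Finset.univ).biUnion fun Y =>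
            Fintype.piFinset fun _ : Fin (8 * D) => F B Y).card : ℕ) : ℝ) := by
          exact_mod_cast hcard
      _ ≤ ∑ b ∈ Bs, ∑ B ∈ Finset.powersetCard b (Finset.univ : Finset (Fin N)),
          ∑ Y ∈ Finset.powersetCard (7 * D * b) (Finset.univ : Finset (Fin N)),
            ((Fintype.piFinset fun _ : Fin (8 * D) => F B Y).card : ℝ) := by
          have : ((Bs.biUnion fun b => (Finset.powersetCard b Finset.univ).biUnion fun B =>
          (Finset.powersetCard (7 * D * b) Finset.univ).biUnion fun Y =>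
            Fintype.piFinset fun _ : Fin (8 * D) => F B Y).card : ℕ) ≤
            ∑ b ∈ Bs, ∑ B ∈ Finset.powersetCard b (Finset.univ : Finset (Fin N)),
          ∑ Y ∈ Finset.powersetCard (7 * D * b) (Finset.univ : Finset (Fin N)),
            (Fintype.piFinset fun _ : Fin (8 * D) => F B Y).card := by
            refine Finset.card_biUnion_le.trans (Finset.sum_le_sum fun b _ => ?_)
            refine Finset.card_biUnion_le.trans (Finset.sum_le_sum fun B _ => ?_)
            exact Finset.card_biUnion_le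
          exact_mod_cast this
      _ ≤ ∑ b ∈ Bs, ∑ B ∈ Finset.powersetCard b (Finset.univ : Finset (Fin N)),
          ∑ Y ∈ Finset.powersetCard (7 * D * b) (Finset.univ : Finset (Fin N)),
            ((((7 * D * b : ℕ) : ℝ) / N) ^ (b * (8 * D)) * (N.factorial : ℝ) ^ (8 * D)) := by
          refine Finset.sum_le_sum fun b hb => Finset.sum_le_sum fun B hB =>
            Finset.sum_le_sum fun Y hY => hFcard b hb B hB Y hY
      _ ≤ ∑ b ∈ Bs, (1 / 4 : ℝ) ^ b * (N.factorial : ℝ) ^ (8 * D) := by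
          refine Finset.sum_le_sum fun b hb => ?_
          simp only [Finset.sum_const, Finset.card_powersetCard, Finset.card_univ,
            Fintype.card_fin, nsmul_eq_mul]
          rw [hBs, Finset.mem_filter, Finset.mem_Icc] at hb
          have ht := t03_term D hD α hα0 hα N b hb.1.1 hb.2
          calc (N.choose b : ℝ) * ((N.choose (7 * D * b) : ℝ) *
                ((((7 * D * b : ℕ) : ℝ) / N) ^ (b * (8 * D)) * (N.factorial : ℝ) ^ (8 * D)))
              = ((N.choose b : ℝ) * (N.choose (7 * D * b) : ℝ) *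
                (((7 * D * b : ℕ) : ℝ) / N) ^ (b * (8 * D))) * (N.factorial : ℝ) ^ (8 * D) := by
                ring
            _ ≤ _ := by gcongr
  have hcardπ : ((Fintype.card (Fin (8 * D) → Equiv.Perm (Fin N)) : ℕ) : ℝ) =
      (N.factorial : ℝ) ^ (8 * D) := by
    rw [Fintype.card_fun, Fintype.card_perm, Fintype.card_fin, Fintype.card_fin]
    push_cast; rfl
  rw [hcardπ, ← Finset.sum_mul] at hbound
  have hpow : (0:ℝ) < (N.factorial : ℝ) ^ (8 * D) := by positivity
  have hsum : ∑ b ∈ Bs, (1 / 4 : ℝ) ^ b < 1 := by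
    have h1 : ∑ b ∈ Bs, (1 / 4 : ℝ) ^ b ≤ ∑ b ∈ Finset.Icc 1 N, (1 / 4 : ℝ) ^ b := by
      apply Finset.sum_le_sum_of_subset_of_nonneg (Finset.filter_subset _ _)
      intros; positivity
    have h2 : ∀ n : ℕ, ∑ b ∈ Finset.Icc 1 n, (1 / 4 : ℝ) ^ b ≤ 1 / 3 - 1 / 3 * (1 / 4) ^ n := by
      intro n
      induction n with
      | zero => simp
      | succ n ih =>
        rw [Finset.sum_Icc_succ_top (by omega), pow_succ]
        linarith
    have h3 := h2 N
    have h4 : (0:ℝ) ≤ 1 / 3 * (1 / 4) ^ N := by positivity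
    linarith
  have : (∑ b ∈ Bs, (1 / 4 : ℝ) ^ b) * (N.factorial : ℝ) ^ (8 * D) <
      1 * (N.factorial : ℝ) ^ (8 * D) := by gcongr
  linarith

end Pool.Agent.PolyRec
end

section

set_option autoImplicit false

namespace Pool.Agent.PolyRec

open MeasureTheory

theorem t01_rep (t : Tor) : ∃ r : ℝ, (r : Tor) = t ∧ ‖t‖ = |r| ∧ |r| ≤ 1 / 2 := by
  induction t using QuotientAddGroup.induction_on with
  | H x =>
    refine ⟨x - round x, ?_, ?_, ?_⟩
    · have h2 : (((round x : ℤ) : ℝ) : Tor) = 0 :=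
        (AddCircle.coe_eq_zero_iff (1:ℝ)).2 ⟨round x, by simp⟩
      rw [AddCircle.coe_sub, h2, sub_zero]
    · exact UnitAddCircle.norm_eq
    · exact abs_sub_round x

theorem t01_coe_norm {r : ℝ} (h : |r| ≤ 1 / 2) : ‖(r : Tor)‖ = |r| := by
  exact (AddCircle.norm_coe_eq_abs_iff (1:ℝ) (x := r) one_ne_zero).2 (by simpa using h)

theorem t01_double (t : Tor) (h : ‖t‖ < 1 / 4) : ‖(2 : ℤ) • t‖ = 2 * ‖t‖ := by
  obtain ⟨r, hr, hn, h2⟩ := t01_rep t
  have h3 : (2 : ℤ) • t = ((2 * r : ℝ) : Tor) := by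
    rw [← hr]
    have : (2 * r : ℝ) = (2 : ℤ) • r := by simp
    rw [this]; rfl
  rw [h3, t01_coe_norm, hn, abs_mul, abs_of_pos (by norm_num : (0:ℝ) < 2)]
  rw [abs_mul, abs_of_pos (by norm_num : (0:ℝ) < 2)]
  rw [hn] at h; linarith

theorem t01_pow (t : Tor) (L : ℕ) (h : ∀ l < L, ‖((2 : ℤ) ^ l) • t‖ < 1 / 4) :
    ‖((2 : ℤ) ^ L) • t‖ = 2 ^ L * ‖t‖ := by
  induction L with
  | zero => simp
  | succ L ih =>
    have h1 := ih (fun l hl => h l (by omega))
    have h2 := t01_double _ (h L (by omega))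
    rw [pow_succ', mul_smul, h2, h1, pow_succ]; ring

/-- T01 -/
theorem exists_dyadic (t : Tor) (L : ℕ) (x : ℝ) (_hx0 : 0 < x) (hx : x ≤ ‖t‖)
    (hL : 1 ≤ 4 * 2 ^ L * x) :
    ∃ l : ℕ, l ≤ L ∧ 1 / 4 ≤ ‖((2 : ℤ) ^ l) • t‖ ∧ 2 ^ l * x ≤ 1 / 2 := by
  classical
  have hex : ∃ l : ℕ, 1 / 4 ≤ ‖((2 : ℤ) ^ l) • t‖ := by
    by_contra hcon
    push Not at hcon
    have h1 := t01_pow t L (fun l _ => hcon l)
    have h2 := hcon L
    rw [h1] at h2
    have h3 : (2:ℝ) ^ L * x ≤ 2 ^ L * ‖t‖ := by gcongr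
    linarith
  have hmin : ∀ l < Nat.find hex, ‖((2 : ℤ) ^ l) • t‖ < 1 / 4 := fun l hl =>
    not_le.1 (Nat.find_min hex hl)
  refine ⟨Nat.find hex, ?_, Nat.find_spec hex, ?_⟩
  · by_contra hcon
    push Not at hcon
    have h1 := t01_pow t L (fun l hl => hmin l (by omega))
    have h2 := hmin L hcon
    rw [h1] at h2
    have h3 : (2:ℝ) ^ L * x ≤ 2 ^ L * ‖t‖ := by gcongr
    linarith
  · rcases Nat.eq_zero_or_pos (Nat.find hex) with h0 | h0
    · rw [h0]
      obtain ⟨r, -, hn, h2⟩ := t01_rep t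
      rw [hn] at hx; simp; linarith
    · obtain ⟨l, hl⟩ := Nat.exists_eq_succ_of_ne_zero h0.ne'
      have h1 := t01_pow t l (fun l' hl' => hmin l' (by omega))
      have h2 := hmin l (by omega)
      rw [h1] at h2
      rw [hl, Nat.succ_eq_add_one, pow_succ]
      have h3 : (2:ℝ) ^ l * x ≤ 2 ^ l * ‖t‖ := by gcongr
      linarith

end Pool.Agent.PolyRec
end

section

set_option autoImplicit false

namespace Pool.Agent.PolyRec

open MeasureTheory

/-- Elements with a bad dyadic multiple are at most as many as bad pairs. -/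
theorem t04_card_le {κ : Type} [Fintype κ] (w : κ → Tor) (L : ℕ) (s : Finset κ)
    (h : ∀ z ∈ s, ∃ l : ℕ, l ≤ L ∧ 3 / 16 ≤ ‖((2 : ℤ) ^ l) • w z‖) :
    (s.card : ℝ) ≤ cnt (fun z : κ × Fin (L + 1) =>
      3 / 16 ≤ ‖((2 : ℤ) ^ (z.2 : ℕ)) • w z.1‖) := by
  classical
  choose! l hl using h
  unfold cnt
  rw [Nat.cast_le]
  refine Finset.card_le_card_of_injOn
    (fun z => (z, (⟨min (l z) L, by omega⟩ : Fin (L + 1)))) ?_ ?_
  · intro z hz
    have h1 := hl z hz
    have h2 : min (l z) L = l z := min_eq_left h1.1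
    simp only [Finset.coe_filter, Finset.mem_univ, true_and, Set.mem_ofPred_eq]
    rw [h2]
    exact h1.2
  · intro z _ z' _ hzz
    exact (Prod.mk.inj hzz).1

/-- Double counting: slots hit exactly once. -/
theorem t04_unique {K N : ℕ} (π : Fin K → Equiv.Perm (Fin N)) (B : Finset (Fin N)) :
    2 * (Finset.univ.biUnion fun i => B.image (π i)).card ≤
      K * B.card + (Finset.univ.filter fun b : Fin N =>
        (Finset.univ.filter fun j : Fin K => (π j).symm b ∈ B).card = 1).card := by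
  classical
  set c : Fin N → ℕ := fun b => (Finset.univ.filter fun j : Fin K => (π j).symm b ∈ B).card with hc
  have hsum : ∑ b, c b = K * B.card := by
    simp only [hc, Finset.card_filter]
    rw [Finset.sum_comm]
    have : ∀ j : Fin K, (∑ b : Fin N, if (π j).symm b ∈ B then 1 else 0) = B.card := by
      intro j
      rw [Equiv.sum_comp (π j).symm (fun a => if a ∈ B then 1 else 0)]
      simp
    rw [Finset.sum_congr rfl (fun j _ => this j)]
    simp
  have hU : (Finset.univ.biUnion fun i => B.image (π i)) = Finset.univ.filter fun b => 0 < c b := by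
    ext b
    simp only [Finset.mem_biUnion, Finset.mem_univ, true_and, Finset.mem_image,
      Finset.mem_filter, hc, Finset.card_pos]
    constructor
    · rintro ⟨i, a, ha, rfl⟩
      exact ⟨i, by simpa using ha⟩
    · rintro ⟨i, hi⟩
      have hi' : (π i).symm b ∈ B := by simpa using hi
      exact ⟨i, (π i).symm b, hi', by simp⟩
  rw [hU, ← hsum, Finset.card_filter (fun b => 0 < c b),
    show (Finset.univ.filter fun b : Fin N =>
        (Finset.univ.filter fun j : Fin K => (π j).symm b ∈ B).card = 1).card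
      = ∑ b : Fin N, (if c b = 1 then 1 else 0) from Finset.card_filter _ _, Finset.mul_sum,
    ← Finset.sum_add_distrib]
  apply Finset.sum_le_sum
  intro b _
  generalize c b = m
  split_ifs <;> omega

/-- One tier. -/
theorem t04_tier (D N L : ℕ) (hD : 1 ≤ D) (π : Fin (8 * D) → Equiv.Perm (Fin N))
    (α x : ℝ) (hexp : Expands D α π) (hx0 : 0 < x)
    (hL : 1 ≤ 4 * 2 ^ L * (64 * (D : ℝ) * x)) (t : Fin N → Tor)
    (hbad : cnt (fun z : (Fin N ⊕ Fin N) × Fin (L + 1) =>
      3 / 16 ≤ ‖((2 : ℤ) ^ (z.2 : ℕ)) • combo π t z.1‖) ≤ α * N)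
    (hB : cnt (fun a : Fin N => x ≤ ‖t a‖) ≤ α * N) :
    8 * (D : ℝ) * cnt (fun a : Fin N => 64 * (D : ℝ) * x ≤ ‖t a‖) ≤
      2 * (D : ℝ) * cnt (fun a : Fin N => x ≤ ‖t a‖) + α * N := by
  classical
  have hD' : (1:ℝ) ≤ D := by exact_mod_cast hD
  set B : Finset (Fin N) := Finset.univ.filter (fun a => x ≤ ‖t a‖) with hBdef
  set C : Finset (Fin N) := Finset.univ.filter (fun a => 64 * (D : ℝ) * x ≤ ‖t a‖) with hCdef
  have hcB : cnt (fun a : Fin N => x ≤ ‖t a‖) = (B.card : ℝ) := by
    unfold cnt; rfl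
  have hcC : cnt (fun a : Fin N => 64 * (D : ℝ) * x ≤ ‖t a‖) = (C.card : ℝ) := by
    unfold cnt; rfl
  rw [hcB] at hB ⊢
  rw [hcC]
  have hCB : C ⊆ B := by
    intro a ha
    simp only [hCdef, hBdef, Finset.mem_filter, Finset.mem_univ, true_and] at ha ⊢
    nlinarith
  have h7 := hexp B hB
  have h2 := t04_unique π B
  set U1 : Finset (Fin N) := Finset.univ.filter fun b : Fin N =>
        (Finset.univ.filter fun j : Fin (8 * D) => (π j).symm b ∈ B).card = 1 with hU1
  set V : Finset (Fin N) := Finset.univ.biUnion fun i => (B \ C).image (π i) with hV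
  have hVcard : V.card ≤ 8 * D * (B \ C).card := by
    have := Finset.card_biUnion_le_card_mul (Finset.univ : Finset (Fin (8 * D)))
      (fun i => (B \ C).image (π i)) (B \ C).card (fun i _ => Finset.card_image_le)
    simpa using this
  have hsd : (B \ C).card = B.card - C.card := Finset.card_sdiff_of_subset hCB
  have hCBcard : C.card ≤ B.card := Finset.card_le_card hCB
  have hU2 : (((U1 \ V).card : ℕ) : ℝ) ≤ α * N := by
    have hmap : ((U1 \ V).map ⟨Sum.inr, Sum.inr_injective⟩ : Finset (Fin N ⊕ Fin N)).card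
        = (U1 \ V).card := Finset.card_map _
    rw [← hmap]
    refine le_trans (t04_card_le (combo π t) L _ ?_) hbad
    intro z hz
    rw [Finset.mem_map] at hz
    obtain ⟨b, hb, rfl⟩ := hz
    rw [Finset.mem_sdiff] at hb
    obtain ⟨hb1, hb2⟩ := hb
    simp only [hU1, Finset.mem_filter, Finset.mem_univ, true_and] at hb1
    obtain ⟨j0, hj0⟩ := Finset.card_eq_one.mp hb1
    have hj0B : (π j0).symm b ∈ B := by
      have : j0 ∈ (Finset.univ.filter fun j : Fin (8 * D) => (π j).symm b ∈ B) := by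
        rw [hj0]; simp
      simpa using this
    have hj0C : (π j0).symm b ∈ C := by
      by_contra hnot
      apply hb2
      rw [hV, Finset.mem_biUnion]
      refine ⟨j0, Finset.mem_univ _, ?_⟩
      rw [Finset.mem_image]
      exact ⟨(π j0).symm b, Finset.mem_sdiff.mpr ⟨hj0B, hnot⟩, by simp⟩
    have hother : ∀ j ≠ j0, ‖t ((π j).symm b)‖ ≤ x := by
      intro j hj
      by_contra hgt
      push Not at hgt
      have : j ∈ (Finset.univ.filter fun j : Fin (8 * D) => (π j).symm b ∈ B) := by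
        simp only [hBdef, Finset.mem_filter, Finset.mem_univ, true_and]
        exact hgt.le
      rw [hj0, Finset.mem_singleton] at this
      exact hj this
    have hta : 64 * (D : ℝ) * x ≤ ‖t ((π j0).symm b)‖ := by
      simpa [hCdef] using hj0C
    obtain ⟨l, hl1, hl2, hl3⟩ := exists_dyadic (t ((π j0).symm b)) L (64 * (D : ℝ) * x)
      (by positivity) hta hL
    refine ⟨l, hl1, ?_⟩
    have hcombo : combo π t (Sum.inr b) = ∑ i, t ((π i).symm b) := rfl
    simp only [Function.Embedding.coeFn_mk]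
    rw [hcombo, ← Finset.add_sum_erase Finset.univ _ (Finset.mem_univ j0)]
    set rest : Tor := ∑ i ∈ Finset.univ.erase j0, t ((π i).symm b) with hrest
    have hrn : ‖rest‖ ≤ 8 * (D : ℝ) * x := by
      calc ‖rest‖ ≤ ∑ i ∈ Finset.univ.erase j0, ‖t ((π i).symm b)‖ := norm_sum_le _ _
        _ ≤ ∑ i ∈ Finset.univ.erase j0, x := by
            apply Finset.sum_le_sum
            intro i hi
            exact hother i (Finset.ne_of_mem_erase hi)
        _ = ((Finset.univ.erase j0).card : ℝ) * x := by simp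
        _ ≤ 8 * (D : ℝ) * x := by
            apply mul_le_mul_of_nonneg_right _ hx0.le
            have : (Finset.univ.erase j0).card ≤ 8 * D := by
              refine (Finset.card_le_univ _).trans (by simp)
            exact_mod_cast this
    have hn2 : ‖((2 : ℤ) ^ l) • rest‖ ≤ 1 / 16 := by
      calc ‖((2 : ℤ) ^ l) • rest‖ ≤ ‖((2 : ℤ) ^ l)‖ * ‖rest‖ := norm_zsmul_le _ _
        _ = 2 ^ l * ‖rest‖ := by
            congr 1
            rw [Int.norm_eq_abs]
            push_cast
            rw [abs_of_pos (by positivity)]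
        _ ≤ 2 ^ l * (8 * (D : ℝ) * x) := mul_le_mul_of_nonneg_left hrn (by positivity)
        _ = (2 ^ l * (64 * (D : ℝ) * x)) / 8 := by ring
        _ ≤ 1 / 16 := by linarith
    rw [smul_add]
    have := norm_sub_le (((2 : ℤ) ^ l) • t ((π j0).symm b) + ((2 : ℤ) ^ l) • rest)
      (((2 : ℤ) ^ l) • rest)
    rw [add_sub_cancel_right] at this
    linarith
  have hUV : U1.card ≤ (U1 \ V).card + V.card := by
    have := Finset.card_sdiff_add_card U1 V
    have h3 := Finset.card_le_card (Finset.subset_union_left : U1 ⊆ U1 ∪ V)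
    omega
  have h7' : (7:ℝ) * D * B.card ≤ (Finset.univ.biUnion fun i => B.image (π i)).card := by
    exact_mod_cast h7
  have h2' : (2:ℝ) * (Finset.univ.biUnion fun i => B.image (π i)).card ≤
      8 * D * B.card + U1.card := by exact_mod_cast h2
  have hV' : (V.card : ℝ) ≤ 8 * D * ((B.card : ℝ) - C.card) := by
    have h : V.card ≤ 8 * D * (B.card - C.card) := by rw [← hsd]; exact hVcard
    have h' : (V.card : ℝ) ≤ ((8 * D * (B.card - C.card) : ℕ) : ℝ) := by exact_mod_cast h
    rw [Nat.cast_mul, Nat.cast_sub hCBcard] at h'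
    push_cast at h'
    exact h'
  have hUV' : (U1.card : ℝ) ≤ (U1 \ V).card + V.card := by exact_mod_cast hUV
  nlinarith

/-- T04 -/
theorem gadget (D N J L : ℕ) (hD : 1 ≤ D) (π : Fin (8 * D) → Equiv.Perm (Fin N))
    (α A e : ℝ) (hα0 : 0 < α) (hexp : Expands D α π) (hA0 : 0 < A)
    (htier : (64 * (D : ℝ)) ^ J ≤ 4 * 2 ^ L * A)
    (hfin : α * (1 / 4 ^ J + 1 / (6 * (D : ℝ))) ≤ e) (t : Fin N → Tor)
    (hbad : cnt (fun z : (Fin N ⊕ Fin N) × Fin (L + 1) =>
      3 / 16 ≤ ‖((2 : ℤ) ^ (z.2 : ℕ)) • combo π t z.1‖) ≤ α * N) :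
    cnt (fun a : Fin N => A < ‖t a‖) ≤ e * N := by
  classical
  have hD' : (1:ℝ) ≤ D := by exact_mod_cast hD
  have hD0 : (0:ℝ) < 64 * D := by positivity
  set xx : ℕ → ℝ := fun i => A / (64 * (D:ℝ)) ^ i with hxx
  have hxx0 : ∀ i, 0 < xx i := fun i => by simp only [hxx]; positivity
  have hsucc : ∀ i, xx i = 64 * (D:ℝ) * xx (i + 1) := by
    intro i
    simp only [hxx]
    rw [pow_succ]
    field_simp
  have hxL : ∀ i ≤ J, 1 ≤ 4 * 2 ^ L * xx i := by
    intro i hi
    simp only [hxx]
    have h1 : (64 * (D:ℝ)) ^ i ≤ (64 * (D:ℝ)) ^ J := pow_le_pow_right₀ (by linarith) hi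
    rw [← mul_div_assoc, le_div_iff₀ (by positivity), one_mul]
    exact h1.trans htier
  set nn : ℕ → ℝ := fun i => cnt (fun a : Fin N => xx i ≤ ‖t a‖) with hnn
  have hnα : ∀ i ≤ J, nn i ≤ α * N := by
    intro i hi
    have hcard : nn i = (((Finset.univ.filter (fun a : Fin N => xx i ≤ ‖t a‖)).map
        ⟨Sum.inl, Sum.inl_injective⟩ : Finset (Fin N ⊕ Fin N)).card : ℝ) := by
      rw [Finset.card_map]; simp only [hnn]; unfold cnt; rfl
    rw [hcard]
    refine le_trans (t04_card_le (combo π t) L _ ?_) hbad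
    intro z hz
    rw [Finset.mem_map] at hz
    obtain ⟨a, ha, rfl⟩ := hz
    have ha' : xx i ≤ ‖t a‖ := by simpa using ha
    obtain ⟨l, hl1, hl2, _⟩ := exists_dyadic (t a) L (xx i) (hxx0 i) ha' (hxL i hi)
    refine ⟨l, hl1, ?_⟩
    have : combo π t (Sum.inl a) = t a := rfl
    simp only [Function.Embedding.coeFn_mk]
    rw [this]
    linarith
  have hstep : ∀ i < J, nn i ≤ nn (i + 1) / 4 + α * N / (8 * D) := by
    intro i hi
    have h := t04_tier D N L hD π α (xx (i + 1)) hexp (hxx0 _)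
      (by rw [← hsucc]; exact hxL i hi.le) t hbad (hnα (i + 1) hi)
    rw [← hsucc] at h
    have h' : 8 * (D:ℝ) * nn i ≤ 2 * (D:ℝ) * nn (i + 1) + α * N := h
    have h8 : (0:ℝ) < 8 * D := by positivity
    have : nn i ≤ (2 * (D:ℝ) * nn (i + 1) + α * N) / (8 * D) := by
      rw [le_div_iff₀ h8]; linarith
    refine this.trans (le_of_eq ?_)
    field_simp
    ring
  have hN0 : 0 ≤ α * (N:ℝ) := by positivity
  -- iterate
  have hiter : ∀ i ≤ J, nn 0 ≤ nn i / 4 ^ i + α * N / (6 * D) * (1 - 1 / 4 ^ i) := by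
    intro i
    induction i with
    | zero => intro _; simp
    | succ i ih =>
      intro hi
      have h1 := ih (by omega)
      have h2 := hstep i (by omega)
      have h3 : nn i / 4 ^ i ≤ (nn (i + 1) / 4 + α * N / (8 * D)) / 4 ^ i := by
        gcongr
      refine h1.trans ((add_le_add_left h3 _).trans (le_of_eq ?_))
      rw [pow_succ]
      field_simp
      ring
  have h0 := hiter J le_rfl
  have hJ := hnα J le_rfl
  have h4 : (0:ℝ) < 4 ^ J := by positivity
  have hle : cnt (fun a : Fin N => A < ‖t a‖) ≤ nn 0 := by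
    simp only [hnn]
    unfold cnt
    rw [Nat.cast_le]
    apply Finset.card_le_card
    intro a ha
    simp only [Finset.mem_filter, Finset.mem_univ, true_and] at ha ⊢
    simp only [hxx, pow_zero, div_one]
    exact ha.le
  have h5 : nn J / 4 ^ J ≤ α * N / 4 ^ J := by gcongr
  have h6 : α * N / (6 * D) * (1 - 1 / 4 ^ J) ≤ α * N / (6 * (D:ℝ)) := by
    have h61 : (0:ℝ) ≤ α * N / (6 * D) := by positivity
    have h62 : (1:ℝ) - 1 / 4 ^ J ≤ 1 := by
      have : (0:ℝ) < 1 / 4 ^ J := by positivity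
      linarith
    calc α * N / (6 * D) * (1 - 1 / 4 ^ J) ≤ α * N / (6 * D) * 1 :=
          mul_le_mul_of_nonneg_left h62 h61
      _ = _ := mul_one _
  have h7 : α * N / 4 ^ J + α * N / (6 * (D:ℝ)) = α * (1 / 4 ^ J + 1 / (6 * (D : ℝ))) * N := by
    ring
  have h8 : α * (1 / 4 ^ J + 1 / (6 * (D : ℝ))) * N ≤ e * N :=
    mul_le_mul_of_nonneg_right hfin (Nat.cast_nonneg N)
  linarith

end Pool.Agent.PolyRec
end

section

set_option autoImplicit false

namespace Pool.Agent.PolyRec

open MeasureTheory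

theorem cnt_eq {ι : Type} [Fintype ι] (p : ι → Prop) [DecidablePred p] :
    cnt p = ((Finset.univ.filter p).card : ℝ) := by
  unfold cnt
  congr!

theorem cnt_mono {ι : Type} [Fintype ι] {p q : ι → Prop} (h : ∀ i, p i → q i) :
    cnt p ≤ cnt q := by
  classical
  rw [cnt_eq, cnt_eq]
  exact_mod_cast Finset.card_le_card (Finset.monotone_filter_right _ (fun i _ => h i))

theorem cnt_or_le {ι : Type} [Fintype ι] (p q : ι → Prop) :
    cnt (fun i => p i ∨ q i) ≤ cnt p + cnt q := by
  classical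
  rw [cnt_eq, cnt_eq, cnt_eq]
  have : (Finset.univ.filter fun i => p i ∨ q i) = Finset.univ.filter p ∪ Finset.univ.filter q := by
    ext i; simp
  have h2 := Finset.card_union_le (Finset.univ.filter p) (Finset.univ.filter q)
  rw [← this] at h2
  exact_mod_cast h2

theorem cnt_split {ι : Type} [Fintype ι] (p q : ι → Prop) :
    cnt p = cnt (fun i => p i ∧ q i) + cnt (fun i => p i ∧ ¬ q i) := by
  classical
  rw [cnt_eq, cnt_eq, cnt_eq]
  have h := Finset.card_filter_add_card_filter_not (s := Finset.univ.filter p) q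
  rw [Finset.filter_filter, Finset.filter_filter] at h
  exact_mod_cast h.symm

/-- T05 -/
theorem step_count {ι : Type} [Fintype ι] (lam A' : ℝ) (hA' : 0 ≤ A') (y h : ι → Tor)
    (hy : InV lam A' y) (hyh : InV lam A' (y + h)) (b : ℝ)
    (hin : cnt (fun j => 1 / 16 < ‖y j‖ ∧ A' < ‖h j‖) ≤ b) :
    cnt (fun j => ‖y j‖ ≤ 1 / 16 ∧ 1 / 16 < ‖y j + h j‖) ≤
      b + (2 * A' + 4 * lam) * Fintype.card ι := by
  have e1 := cnt_split (fun j => ‖y j‖ ≤ 1 / 16) (fun j => ‖y j + h j‖ ≤ 1 / 16)
  have e2 := cnt_split (fun j => ‖y j + h j‖ ≤ 1 / 16) (fun j => ‖y j‖ ≤ 1 / 16)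
  have e3 := cnt_split (fun j => ‖y j‖ ≤ 1 / 16 + A') (fun j => ‖y j‖ ≤ 1 / 16)
  have e4 : cnt (fun j => ‖y j‖ ≤ 1 / 16 + A' ∧ ‖y j‖ ≤ 1 / 16) = cnt (fun j => ‖y j‖ ≤ 1 / 16) := by
    congr 1; funext j
    exact propext ⟨fun h => h.2, fun h => ⟨by linarith, h⟩⟩
  have e5 : cnt (fun j => ‖y j + h j‖ ≤ 1 / 16 ∧ ‖y j‖ ≤ 1 / 16) =
      cnt (fun j => ‖y j‖ ≤ 1 / 16 ∧ ‖y j + h j‖ ≤ 1 / 16) := by
    congr 1; funext j
    exact propext and_comm
  have e6 : cnt (fun j => ‖y j + h j‖ ≤ 1 / 16 ∧ ¬ ‖y j‖ ≤ 1 / 16) ≤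
      cnt (fun j => 1 / 16 < ‖y j‖ ∧ A' < ‖h j‖) +
      cnt (fun j => ‖y j‖ ≤ 1 / 16 + A' ∧ ¬ ‖y j‖ ≤ 1 / 16) := by
    refine le_trans (cnt_mono ?_) (cnt_or_le _ _)
    rintro j ⟨h1, h2⟩
    rcases lt_or_ge A' ‖h j‖ with h3 | h3
    · exact Or.inl ⟨not_le.1 h2, h3⟩
    · refine Or.inr ⟨?_, h2⟩
      have : ‖y j‖ ≤ ‖y j + h j‖ + ‖h j‖ := by
        simpa using norm_sub_le (y j + h j) (h j)
      linarith
  have e7 : cnt (fun j => ‖y j‖ ≤ 1 / 16 ∧ 1 / 16 < ‖y j + h j‖) =
      cnt (fun j => ‖y j‖ ≤ 1 / 16 ∧ ¬ ‖y j + h j‖ ≤ 1 / 16) := by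
    congr 1; funext j
    rw [not_le]
  obtain ⟨a1, a2⟩ := hy
  obtain ⟨b1, b2⟩ := hyh
  simp only [Pi.add_apply] at b1 b2
  rw [abs_le] at a1 a2 b1 b2
  rw [e7]
  rw [e4] at e3
  rw [e5] at e2
  nlinarith [a1.1, a1.2, a2.1, a2.2, b1.1, b1.2]

end Pool.Agent.PolyRec
end
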