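import Pool.Agent.Lib.MP_9d6b4a_an.Levels
import Pool.Agent.Lib.MP_9d6b4a_an.Defs
import Pool.Agent.Lib.MP_9d6b4a_an.Mg.G001

section

set_option autoImplicit false

namespace Pool.Agent.PolyRec

open MeasureTheory

/-- Monotonicity and subadditivity of `cnt`. -/
theorem t12_cnt_le_add {ι : Type} [Fintype ι] {p q r : ι → Prop} (h : ∀ a, p a → q a ∨ r a) :
    cnt p ≤ cnt q + cnt r := by
  classical
  unfold cnt
  rw [← Nat.cast_add]
  refine Nat.cast_le.2 ((Finset.card_le_card ?_).trans (Finset.card_union_le _ _))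
  intro a ha
  have ha' := (Finset.mem_filter.1 ha).2
  rw [Finset.mem_union, Finset.mem_filter, Finset.mem_filter]
  rcases h a ha' with h1 | h1
  · exact Or.inl ⟨Finset.mem_univ _, h1⟩
  · exact Or.inr ⟨Finset.mem_univ _, h1⟩

theorem t12_cnt_eq_sum {ι : Type} [Fintype ι] (p : ι → Prop) [DecidablePred p] :
    cnt p = ∑ a, if p a then (1 : ℝ) else 0 := by
  classical
  unfold cnt
  rw [Finset.card_filter]
  push_cast
  refine Finset.sum_congr rfl fun a _ => ?_
  by_cases h : p a <;> simp [h]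

theorem t12_cnt_prod {α β : Type} [Fintype α] [Fintype β] (p : α × β → Prop) :
    cnt p = ∑ a, cnt (fun b => p (a, b)) := by
  classical
  rw [t12_cnt_eq_sum, Fintype.sum_prod_type]
  refine Finset.sum_congr rfl fun a _ => ?_
  rw [t12_cnt_eq_sum]

theorem t12_cnt_false {ι : Type} [Fintype ι] {p : ι → Prop} (h : ∀ a, ¬ p a) : cnt p = 0 := by
  classical
  unfold cnt
  rw [Nat.cast_eq_zero, Finset.card_eq_zero, Finset.filter_eq_empty_iff]
  exact fun a _ => h a

theorem t12_norm_zsmul_le (x : Tor) (c : ℤ) (A : ℝ) (hx : ‖x‖ ≤ A) : ‖c • x‖ ≤ |(c : ℝ)| * A := by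
  refine (norm_zsmul_le c x).trans ?_
  rw [Int.norm_eq_abs]
  exact mul_le_mul_of_nonneg_left hx (abs_nonneg _)

/-- Two consecutive multiples small imply all multiples in the progression are small. -/
theorem t12_small (S : ℕ) (x : Tor) (m n : ℤ) (A A' : ℝ) (hA : 0 < A)
    (hA' : (4 * (S : ℝ) + 2) * A ≤ A') (i q : ℕ) (hi : i < 2 * (S + 1)) (hq : q < S + 1)
    (h0 : ‖(m + ((2 * q : ℕ) : ℤ) * n) • x‖ ≤ A)
    (h1 : ‖(m + ((2 * q + 1 : ℕ) : ℤ) * n) • x‖ ≤ A) :
    ‖(m + (i : ℤ) * n) • x‖ ≤ A' := by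
  set d : ℤ := (i : ℤ) - 2 * q with hd
  have hk : (m + (i : ℤ) * n) • x = (1 - d) • ((m + ((2 * q : ℕ) : ℤ) * n) • x) +
      d • ((m + ((2 * q + 1 : ℕ) : ℤ) * n) • x) := by
    rw [← mul_zsmul', ← mul_zsmul', ← add_zsmul]
    congr 1
    rw [hd]; push_cast; ring
  rw [hk]
  have hdle : |((1 - d : ℤ) : ℝ)| + |(d : ℝ)| ≤ 4 * (S : ℝ) + 2 := by
    have : |(1 - d)| + |d| ≤ 4 * (S : ℤ) + 2 := by
      rcases abs_cases (1 - d) with h | h <;> rcases abs_cases d with h' | h' <;> omega
    exact_mod_cast this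
  calc _ ≤ ‖(1 - d) • ((m + ((2 * q : ℕ) : ℤ) * n) • x)‖ +
        ‖d • ((m + ((2 * q + 1 : ℕ) : ℤ) * n) • x)‖ := norm_add_le _ _
    _ ≤ |((1 - d : ℤ) : ℝ)| * A + |(d : ℝ)| * A :=
        add_le_add (t12_norm_zsmul_le _ _ _ h0) (t12_norm_zsmul_le _ _ _ h1)
    _ = (|((1 - d : ℤ) : ℝ)| + |(d : ℝ)|) * A := by ring
    _ ≤ (4 * (S : ℝ) + 2) * A := mul_le_mul_of_nonneg_right hdle hA.le
    _ ≤ A' := hA'

/-- T12: the induction over the levels. -/
theorem induction (P : Par) (O : ℕ) (z : Ix P.S (o' O 0) (o O 0) → Tor)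
    (F : Fin (P.S + 1) → (G P.S O ≃+ Y P.S O))
    (hF1 : ∀ p g k z, F p g k (Sum.inl z) = gin g k (p.succAbove z.1) z.2)
    (hF2 : ∀ p g k a, F p g k (Sum.inr a) = g k (p, a))
    (m n : ℤ) (y : Y P.S O) (g : G P.S O) (hy : Good P O z y)
    (hall : ∀ i : Fin (2 * (P.S + 1)),
      Good P O z (y + (m + (i : ℕ) * n) • fun k => Elev P O k (Jset (y k)) (F (pr i) g k))) :
    ∀ k (i : Fin (2 * (P.S + 1))),
      cnt (fun a : Fin (o O k) => P.A < ‖(m + (i : ℕ) * n) • g k (pr i, a)‖) ≤ P.e * o O k := by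
  intro k
  induction k with
  | zero =>
    intro i
    rw [t12_cnt_false]
    · exact mul_nonneg P.he0.le (Nat.cast_nonneg _)
    intro a hlt
    have h1 := hy.1
    have h2 := (hall i).1
    have h3 : dist (y 0 (Sum.inr a))
        ((y + (m + (i : ℕ) * n) • fun k => Elev P O k (Jset (y k)) (F (pr i) g k)) 0 (Sum.inr a))
        < P.A := by
      have e1 := (dist_le_pi_dist (y 0) z (Sum.inr a)).trans_lt h1
      have e2 := (dist_le_pi_dist _ z (Sum.inr a)).trans_lt h2
      calc _ ≤ _ := dist_triangle_right _ _ (z (Sum.inr a))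
        _ < P.A / 2 + P.A / 2 := add_lt_add e1 e2
        _ = P.A := by ring
    have h4 : (y + (m + (i : ℕ) * n) • fun k => Elev P O k (Jset (y k)) (F (pr i) g k)) 0 (Sum.inr a)
        = y 0 (Sum.inr a) + (m + (i : ℕ) * n) • g 0 (pr i, a) := by
      rw [← hF2 (pr i) g 0 a]
      rfl
    rw [h4, dist_self_add_right] at h3
    exact absurd hlt (not_lt.2 h3.le)
  | succ k ih =>
    intro i
    have hlev := (exists_level P (o O k)).choose_spec.2.2 (y (k + 1))
      ((m + (i : ℕ) * n) • F (pr i) g (k + 1)) (hy.2 k)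
    have h5 : y (k + 1) + Elev P O (k + 1) (Jset (y (k + 1)))
        ((m + (i : ℕ) * n) • F (pr i) g (k + 1)) =
        (y + (m + (i : ℕ) * n) • fun k => Elev P O k (Jset (y k)) (F (pr i) g k)) (k + 1) := by
      rw [map_zsmul]
      rfl
    have h6 := (hall i).2 k
    rw [← h5] at h6
    have hlev2 := hlev h6
    have hin : cnt (fun z : Fin P.S × Fin (o O k) =>
        P.A' < ‖((m + (i : ℕ) * n) • F (pr i) g (k + 1)) (Sum.inl z)‖) ≤
        2 * P.e * (P.S * (o O k : ℕ)) := by
      rw [t12_cnt_prod]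
      have hq : ∀ q' : Fin P.S, cnt (fun a : Fin (o O k) =>
          P.A' < ‖((m + (i : ℕ) * n) • F (pr i) g (k + 1)) (Sum.inl (q', a))‖) ≤
          P.e * o O k + P.e * o O k := by
        intro q'
        set q := (pr i).succAbove q' with hqdef
        have hq0 : 2 * (q : ℕ) < 2 * (P.S + 1) := by omega
        have hq1 : 2 * (q : ℕ) + 1 < 2 * (P.S + 1) := by omega
        have i0 := ih ⟨2 * (q : ℕ), hq0⟩
        have i1 := ih ⟨2 * (q : ℕ) + 1, hq1⟩
        have p0 : pr (⟨2 * (q : ℕ), hq0⟩ : Fin (2 * (P.S + 1))) = q := by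
          ext; simp [pr]
        have p1 : pr (⟨2 * (q : ℕ) + 1, hq1⟩ : Fin (2 * (P.S + 1))) = q := by
          ext; simp only [pr]; omega
        rw [p0] at i0
        rw [p1] at i1
        refine (t12_cnt_le_add ?_).trans (add_le_add i0 i1)
        intro a ha
        by_contra hcon
        rw [not_or, not_lt, not_lt] at hcon
        have hv : ((m + (i : ℕ) * n) • F (pr i) g (k + 1)) (Sum.inl (q', a)) =
            (m + (i : ℕ) * n) • g k (q, a) := by
          rw [Pi.smul_apply, hF1]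
          rfl
        rw [hv] at ha
        exact absurd ha (not_lt.2 (t12_small P.S _ m n P.A P.A' P.hA0 P.hA' i q i.2 q.2
          hcon.1 hcon.2))
      calc _ ≤ ∑ _q' : Fin P.S, (P.e * o O k + P.e * o O k) := Finset.sum_le_sum fun q' _ => hq q'
        _ = 2 * P.e * (P.S * (o O k : ℕ)) := by
            rw [Finset.sum_const, Finset.card_univ, Fintype.card_fin, nsmul_eq_mul]; ring
    have hout := hlev2 hin
    refine le_trans (le_of_eq ?_) hout
    have : (fun a : Fin (o O (k + 1)) => P.A < ‖(m + (i : ℕ) * n) • g (k + 1) (pr i, a)‖) =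
        (fun a : Fin (2 * o O k) =>
          P.A < ‖((m + (i : ℕ) * n) • F (pr i) g (k + 1)) (Sum.inr a)‖) := by
      funext a
      rw [Pi.smul_apply, hF2]
    rw [this]
    rfl

end Pool.Agent.PolyRec
end

section

set_option autoImplicit false

namespace Pool.Agent.PolyRec

open MeasureTheory

open ProbabilityTheory

/-- the indicator of a ball -/
noncomputable def t07_ind (r : ℝ) : Tor → ℝ := (Metric.closedBall (0 : Tor) r).indicator 1

theorem t07_ind_meas (r : ℝ) : Measurable (t07_ind r) :=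
  measurable_one.indicator Metric.isClosed_closedBall.measurableSet

theorem t07_ind_nonneg (r : ℝ) (x : Tor) : 0 ≤ t07_ind r x :=
  Set.indicator_nonneg (fun _ _ => zero_le_one) x

theorem t07_ind_le (r : ℝ) (x : Tor) : t07_ind r x ≤ 1 :=
  Set.indicator_le_self' (fun _ _ => zero_le_one) x

theorem t07_integral {r : ℝ} (hr0 : 0 ≤ r) (hr : r ≤ 1 / 2) :
    ∫ x, t07_ind r x ∂(volume : Measure Tor) = 2 * r := by
  unfold t07_ind
  rw [integral_indicator_one Metric.isClosed_closedBall.measurableSet, Measure.real,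
    AddCircle.volume_closedBall, min_eq_right (by linarith), ENNReal.toReal_ofReal (by linarith)]

theorem t07_cnt {ι : Type} [Fintype ι] (r : ℝ) (y : ι → Tor) :
    cnt (fun i => ‖y i‖ ≤ r) = ∑ i, t07_ind r (y i) := by
  classical
  unfold cnt t07_ind
  rw [Finset.card_filter]
  push_cast
  refine Finset.sum_congr rfl fun i _ => ?_
  by_cases h : ‖y i‖ ≤ r
  · rw [if_pos h, Set.indicator_of_mem (by simpa [Metric.mem_closedBall] using h)]
    rfl
  · rw [if_neg h, Set.indicator_of_notMem (by simpa [Metric.mem_closedBall] using h)]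

/-- T07: Chebyshev for counts of pairwise independent uniform points. -/
theorem cheb {Ω : Type} [MeasurableSpace Ω] (μ : Measure Ω) [IsProbabilityMeasure μ]
    {ι : Type} [Fintype ι] (f : ι → Ω → Tor) (hf : ∀ i, Measurable (f i))
    (h1 : ∀ i, μ.map (f i) = volume)
    (h2 : ∀ i j, i ≠ j → μ.map (fun ω => (f i ω, f j ω)) = (volume : Measure Tor).prod volume)
    (r lam : ℝ) (hr0 : 0 ≤ r) (hr : r ≤ 1 / 2) (hlam : 0 < lam) (hι : 0 < Fintype.card ι) :
    μ {ω | lam * Fintype.card ι <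
        |cnt (fun i => ‖f i ω‖ ≤ r) - 2 * r * Fintype.card ι|} ≤
      ENNReal.ofReal (1 / (lam ^ 2 * Fintype.card ι)) := by
  classical
  set X : ι → Ω → ℝ := fun i ω => t07_ind r (f i ω) with hX
  have hXm : ∀ i, Measurable (X i) := fun i => (t07_ind_meas r).comp (hf i)
  have hX0 : ∀ i ω, 0 ≤ X i ω := fun i ω => t07_ind_nonneg r _
  have hX1 : ∀ i ω, X i ω ≤ 1 := fun i ω => t07_ind_le r _
  have hXb : ∀ i, ∀ᵐ ω ∂μ, ‖X i ω‖ ≤ 1 := fun i => Filter.Eventually.of_forall fun ω => by
    rw [Real.norm_eq_abs, abs_of_nonneg (hX0 i ω)]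
    exact hX1 i ω
  have hLp : ∀ i, MemLp (X i) 2 μ := fun i =>
    MemLp.of_bound (hXm i).aestronglyMeasurable 1 (hXb i)
  have hmean : ∀ i, ∫ ω, X i ω ∂μ = 2 * r := by
    intro i
    rw [← t07_integral hr0 hr, ← h1 i,
      integral_map (hf i).aemeasurable (t07_ind_meas r).aestronglyMeasurable]
  have hvar : ∀ i, variance (X i) μ ≤ 1 := by
    intro i
    refine (variance_le_expectation_sq (hXm i).aestronglyMeasurable).trans ?_
    have h3 : ∫ ω, (X i ^ 2) ω ∂μ ≤ ∫ _ω, (1 : ℝ) ∂μ := by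
      refine integral_mono_of_nonneg (Filter.Eventually.of_forall fun ω => ?_)
        (integrable_const _) (Filter.Eventually.of_forall fun ω => ?_)
      · exact sq_nonneg _
      · change (X i ω) ^ 2 ≤ 1
        exact pow_le_one₀ (hX0 i ω) (hX1 i ω)
    simpa using h3
  have hind : Set.Pairwise (↑(Finset.univ : Finset ι)) fun i j => X i ⟂ᵢ[μ] X j := by
    intro i _ j _ hij
    have h3 : IndepFun (f i) (f j) μ := by
      rw [indepFun_iff_map_prod_eq_prod_map_map (hf i).aemeasurable (hf j).aemeasurable,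
        h1 i, h1 j]
      exact h2 i j hij
    exact h3.comp (t07_ind_meas r) (t07_ind_meas r)
  have hsum : variance (∑ i, X i) μ ≤ Fintype.card ι := by
    rw [IndepFun.variance_sum (fun i _ => hLp i) hind]
    calc ∑ i, variance (X i) μ ≤ ∑ _i : ι, (1 : ℝ) := Finset.sum_le_sum fun i _ => hvar i
      _ = Fintype.card ι := by simp
  have hmsum : ∫ ω, (∑ i, X i) ω ∂μ = 2 * r * Fintype.card ι := by
    simp only [Finset.sum_apply]
    rw [integral_finsetSum _ fun i _ => (hLp i).integrable (by norm_num)]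
    simp only [hmean]
    rw [Finset.sum_const, Finset.card_univ, nsmul_eq_mul]
    ring
  have hc : (0 : ℝ) < Fintype.card ι := by exact_mod_cast hι
  have hLpS : MemLp (∑ i, X i) 2 μ := memLp_finsetSum' _ fun i _ => hLp i
  have hcheb := meas_ge_le_variance_div_sq hLpS (c := lam * Fintype.card ι) (by positivity)
  rw [hmsum] at hcheb
  refine (measure_mono ?_).trans (hcheb.trans (ENNReal.ofReal_le_ofReal ?_))
  · intro ω hω
    simp only [Set.mem_ofPred_eq] at hω ⊢
    have h4 : (∑ i, X i) ω = cnt fun i => ‖f i ω‖ ≤ r := by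
      rw [Finset.sum_apply, t07_cnt]
    rw [h4]
    exact hω.le
  · rw [div_le_div_iff₀ (by positivity) (by positivity)]
    nlinarith [mul_le_mul_of_nonneg_right hsum (show (0 : ℝ) ≤ lam ^ 2 * Fintype.card ι by
      positivity)]

end Pool.Agent.PolyRec
end

section

set_option autoImplicit false
set_option linter.deprecated false

namespace Pool.Agent.PolyRec

open MeasureTheory

theorem t13_cnt_eq {ι : Type} [Fintype ι] (y : ι → Tor) (r : ℝ) :
    cnt (fun j => ‖y j‖ ≤ r) = ∑ j, (Set.indicator {x : Tor | ‖x‖ ≤ r} (fun _ => (1 : ℝ)) (y j)) := by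
  classical
  unfold cnt
  rw [Finset.card_filter]
  push_cast
  refine Finset.sum_congr rfl fun j _ => ?_
  by_cases h : ‖y j‖ ≤ r
  · simp [h]
  · simp [h]

theorem t13_cnt_meas {ι : Type} [Fintype ι] (r : ℝ) :
    Measurable (fun y : ι → Tor => cnt (fun j => ‖y j‖ ≤ r)) := by
  have h : (fun y : ι → Tor => cnt (fun j => ‖y j‖ ≤ r)) = fun y =>
      ∑ j, (Set.indicator {x : Tor | ‖x‖ ≤ r} (fun _ => (1 : ℝ)) (y j)) := by
    funext y; exact t13_cnt_eq y r
  rw [h]
  refine Finset.measurable_sum _ fun j _ => ?_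
  have hm : Measurable (Set.indicator {x : Tor | ‖x‖ ≤ r} (fun _ => (1 : ℝ))) :=
    measurable_const.indicator (measurableSet_le measurable_norm measurable_const)
  exact hm.comp (measurable_pi_apply j)

theorem t13_inV_meas {ι : Type} [Fintype ι] (lam A' : ℝ) :
    MeasurableSet {y : ι → Tor | InV lam A' y} := by
  have h1 : MeasurableSet {y : ι → Tor |
      |cnt (fun j => ‖y j‖ ≤ 1 / 16) - 2 * (1 / 16) * Fintype.card ι| ≤ lam * Fintype.card ι} :=
    measurableSet_le ((t13_cnt_meas (ι := ι) (1 / 16)).sub_const _).abs measurable_const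
  have h2 : MeasurableSet {y : ι → Tor |
      |cnt (fun j => ‖y j‖ ≤ 1 / 16 + A') - 2 * (1 / 16 + A') * Fintype.card ι| ≤
        lam * Fintype.card ι} :=
    measurableSet_le ((t13_cnt_meas (ι := ι) (1 / 16 + A')).sub_const _).abs measurable_const
  exact h1.inter h2

/-- T13: the good set is measurable. -/
theorem measurableSet_Good (P : Par) (O : ℕ) (z : Ix P.S (o' O 0) (o O 0) → Tor) :
    MeasurableSet {y : Y P.S O | Good P O z y} := by
  have h0 : Measurable (fun y : Y P.S O => y 0) := measurable_pi_apply 0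
  have h1 : MeasurableSet {y : Y P.S O | dist (y 0) z < P.A / 2} :=
    measurableSet_lt (h0.dist measurable_const) measurable_const
  have h2 : MeasurableSet (⋂ k : ℕ, {y : Y P.S O | InV P.lam P.A' (y (k + 1))}) := by
    refine MeasurableSet.iInter fun k => ?_
    have h0 : Measurable (fun y : Y P.S O => y (k + 1)) := measurable_pi_apply (k + 1)
    exact h0 (t13_inV_meas P.lam P.A')
  have h3 : {y : Y P.S O | Good P O z y} = {y : Y P.S O | dist (y 0) z < P.A / 2} ∩
      (⋂ k : ℕ, {y : Y P.S O | InV P.lam P.A' (y (k + 1))}) := by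
    ext y
    constructor
    · rintro ⟨ha, hb⟩
      exact ⟨ha, Set.mem_iInter.2 hb⟩
    · rintro ⟨ha, hb⟩
      exact ⟨ha, Set.mem_iInter.1 hb⟩
  rw [h3]
  exact h1.inter h2

theorem t13_o_eq (O k : ℕ) : o O k = O * 2 ^ k := by
  induction k with
  | zero => simp [o]
  | succ k ih => simp only [o, ih]; ring

theorem t13_card (S O k : ℕ) :
    Fintype.card (Ix S (o' O (k + 1)) (o O (k + 1))) = (S + 2) * (O * 2 ^ k) := by
  simp only [Ix, Fintype.card_sum, Fintype.card_prod, Fintype.card_fin, o', t13_o_eq]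
  ring

instance t13_prob : IsProbabilityMeasure (volume : Measure Tor) :=
  ⟨by simp [AddCircle.measure_univ]⟩

theorem t13_map1 (S O k : ℕ) (j : Ix S (o' O k) (o O k)) :
    (μY S O).map (fun y => y k j) = (volume : Measure Tor) := by
  let φ : Y S O →+ Tor :=
    { toFun := fun y => y k j
      map_zero' := rfl
      map_add' := fun _ _ => rfl }
  have hc : Continuous φ := (continuous_apply j).comp (continuous_apply k)
  have hs : Function.Surjective φ := fun x => ⟨fun _ _ => x, rfl⟩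
  exact map_haar (μY S O) (volume : Measure Tor) φ hc hs

theorem t13_map2 (S O k : ℕ) (i j : Ix S (o' O k) (o O k)) (hij : i ≠ j) :
    (μY S O).map (fun y => (y k i, y k j)) = (volume : Measure Tor).prod volume := by
  classical
  let φ : Y S O →+ Tor × Tor :=
    { toFun := fun y => (y k i, y k j)
      map_zero' := rfl
      map_add' := fun _ _ => rfl }
  have hc : Continuous φ :=
    ((continuous_apply i).comp (continuous_apply k)).prodMk
      ((continuous_apply j).comp (continuous_apply k))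
  have hs : Function.Surjective φ := fun x => by
    refine ⟨fun k' => if h : k' = k then fun j' => if h ▸ j' = i then x.1 else x.2 else 0, ?_⟩
    ext <;> simp [φ, hij.symm]
  exact map_haar (μY S O) ((volume : Measure Tor).prod volume) φ hc hs

theorem t13_level (P : Par) (O : ℕ) (hO : 0 < O) (k : ℕ) (r : ℝ) (hr0 : 0 ≤ r) (hr : r ≤ 1 / 2) :
    μY P.S O {y | ¬ |cnt (fun j => ‖y (k + 1) j‖ ≤ r) -
        2 * r * Fintype.card (Ix P.S (o' O (k + 1)) (o O (k + 1)))| ≤
        P.lam * Fintype.card (Ix P.S (o' O (k + 1)) (o O (k + 1)))} ≤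
      ENNReal.ofReal (1 / (P.lam ^ 2 * ((P.S : ℝ) + 2) * O) * (1 / 2) ^ k) := by
  have hcard := t13_card P.S O k
  have hpos : 0 < Fintype.card (Ix P.S (o' O (k + 1)) (o O (k + 1))) := by
    rw [hcard]; positivity
  have h := cheb (μY P.S O) (ι := Ix P.S (o' O (k + 1)) (o O (k + 1)))
    (fun j y => y (k + 1) j)
    (fun j => (measurable_pi_apply j).comp (measurable_pi_apply (k + 1)))
    (fun j => t13_map1 P.S O (k + 1) j)
    (fun i j hij => t13_map2 P.S O (k + 1) i j hij)
    r P.lam hr0 hr P.hlam0 hpos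
  have hset : {y : Y P.S O | ¬ |cnt (fun j => ‖y (k + 1) j‖ ≤ r) -
        2 * r * Fintype.card (Ix P.S (o' O (k + 1)) (o O (k + 1)))| ≤
        P.lam * Fintype.card (Ix P.S (o' O (k + 1)) (o O (k + 1)))} =
      {y : Y P.S O | P.lam * Fintype.card (Ix P.S (o' O (k + 1)) (o O (k + 1))) <
        |cnt (fun j => ‖y (k + 1) j‖ ≤ r) -
        2 * r * Fintype.card (Ix P.S (o' O (k + 1)) (o O (k + 1)))|} := by
    ext y; simp only [Set.mem_ofPred_eq, not_le]
  rw [hset]
  refine h.trans (le_of_eq ?_)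
  congr 1
  rw [hcard]
  push_cast
  rw [one_div, one_div, one_div, inv_pow, ← mul_inv]
  congr 1
  ring

/-- T13: for large `O` some good set has positive measure. -/
theorem exists_Good_pos (P : Par) : ∃ O : ℕ, 0 < O ∧ ∃ z : Ix P.S (o' O 0) (o O 0) → Tor,
    0 < μY P.S O {y : Y P.S O | Good P O z y} := by
  have hlam := P.hlam0
  obtain ⟨O, hO⟩ := exists_nat_gt (4 / (P.lam ^ 2 * ((P.S : ℝ) + 2)))
  have hc : 0 < 4 / (P.lam ^ 2 * ((P.S : ℝ) + 2)) := by positivity
  have hOpos : 0 < O := by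
    have : (0 : ℝ) < O := hc.trans hO
    exact_mod_cast this
  refine ⟨O, hOpos, ?_⟩
  set c : ℝ := 1 / (P.lam ^ 2 * ((P.S : ℝ) + 2) * O) with hcdef
  have hc0 : 0 ≤ c := by positivity
  have hOr : (0 : ℝ) < O := by exact_mod_cast hOpos
  have hc4 : 4 * c < 1 := by
    rw [hcdef]
    rw [div_lt_iff₀ (by positivity)] at hO
    rw [mul_one_div, div_lt_one (by positivity)]
    nlinarith
  have hA'nn : 0 ≤ P.A' := by
    have := P.hA'
    have h0 := P.hA0
    have : 0 ≤ (4 * (P.S : ℝ) + 2) * P.A := by positivity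
    linarith
  have hA'16 := P.hA'16
  -- the event
  have hlev : ∀ k, μY P.S O {y | ¬ InV P.lam P.A' (y (k + 1))} ≤
      ENNReal.ofReal (2 * c * (1 / 2) ^ k) := by
    intro k
    have hsub : {y : Y P.S O | ¬ InV P.lam P.A' (y (k + 1))} ⊆
        {y | ¬ |cnt (fun j => ‖y (k + 1) j‖ ≤ (1 / 16 : ℝ)) -
        2 * (1 / 16 : ℝ) * Fintype.card (Ix P.S (o' O (k + 1)) (o O (k + 1)))| ≤
        P.lam * Fintype.card (Ix P.S (o' O (k + 1)) (o O (k + 1)))} ∪
        {y | ¬ |cnt (fun j => ‖y (k + 1) j‖ ≤ (1 / 16 + P.A' : ℝ)) -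
        2 * (1 / 16 + P.A' : ℝ) * Fintype.card (Ix P.S (o' O (k + 1)) (o O (k + 1)))| ≤
        P.lam * Fintype.card (Ix P.S (o' O (k + 1)) (o O (k + 1)))} := by
      intro y hy
      simp only [Set.mem_ofPred_eq, InV, not_and_or] at hy
      exact hy
    refine (measure_mono hsub).trans ((measure_union_le _ _).trans ?_)
    have h1 := t13_level P O hOpos k (1 / 16) (by norm_num) (by norm_num)
    have h2 := t13_level P O hOpos k (1 / 16 + P.A') (by positivity) (by linarith)
    refine (add_le_add h1 h2).trans (le_of_eq ?_)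
    rw [← ENNReal.ofReal_add (by positivity) (by positivity)]
    congr 1
    rw [← hcdef]
    ring
  have hsum : μY P.S O (⋃ k, {y | ¬ InV P.lam P.A' (y (k + 1))}) < 1 := by
    refine (measure_iUnion_le _).trans_lt ?_
    refine (ENNReal.tsum_le_tsum hlev).trans_lt ?_
    have hs : Summable fun k : ℕ => 2 * c * (1 / 2 : ℝ) ^ k :=
      (summable_geometric_of_lt_one (by norm_num) (by norm_num)).mul_left _
    rw [← ENNReal.ofReal_tsum_of_nonneg (fun k => by positivity) hs]
    rw [tsum_mul_left, tsum_geometric_of_lt_one (by norm_num) (by norm_num)]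
    rw [show (1 : ENNReal) = ENNReal.ofReal 1 by simp]
    rw [ENNReal.ofReal_lt_ofReal_iff (by norm_num)]
    linarith
  by_contra hcon
  push Not at hcon
  -- countable dense sequence
  let E := Ix P.S (o' O 0) (o O 0) → Tor
  have hnull : μY P.S O (⋃ n, {y | Good P O (TopologicalSpace.denseSeq E n) y}) = 0 :=
    measure_iUnion_null fun n => le_antisymm (hcon _) (zero_le)
  have hcover : (Set.univ : Set (Y P.S O)) ⊆
      (⋃ n, {y | Good P O (TopologicalSpace.denseSeq E n) y}) ∪
      (⋃ k, {y | ¬ InV P.lam P.A' (y (k + 1))}) := by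
    intro y _
    by_cases hy : ∀ k, InV P.lam P.A' (y (k + 1))
    · left
      have hd := TopologicalSpace.denseRange_denseSeq E
      obtain ⟨n, hn⟩ := hd.exists_dist_lt (y 0) (ε := P.A / 2) (by have := P.hA0; linarith)
      exact Set.mem_iUnion.2 ⟨n, hn, hy⟩
    · right
      push Not at hy
      obtain ⟨k, hk⟩ := hy
      exact Set.mem_iUnion.2 ⟨k, hk⟩
  have h1 : (1 : ENNReal) ≤ μY P.S O (⋃ k, {y | ¬ InV P.lam P.A' (y (k + 1))}) := by
    calc (1 : ENNReal) = μY P.S O Set.univ := (measure_univ).symm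
      _ ≤ _ := measure_mono hcover
      _ ≤ _ := measure_union_le _ _
      _ = _ := by rw [hnull, zero_add]
  exact absurd hsum (not_lt.2 h1)

end Pool.Agent.PolyRec
end

section

set_option autoImplicit false

namespace Pool.Agent.PolyRec

open MeasureTheory Filter Topology

/-- A coordinate followed by multiplication by an integer. -/
noncomputable def t14_f (S O k : ℕ) (p : Fin (S + 1)) (κ : ℤ) (a : Fin (o O k)) :
    G S O →+ Tor where
  toFun g := κ • g k (p, a)
  map_zero' := by simp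
  map_add' := by intro x y; simp [smul_add]

theorem t14_f_apply (S O k : ℕ) (p : Fin (S + 1)) (κ : ℤ) (a : Fin (o O k)) (g : G S O) :
    t14_f S O k p κ a g = κ • g k (p, a) := rfl

theorem t14_cont (S O k : ℕ) (p : Fin (S + 1)) (κ : ℤ) (a : Fin (o O k)) :
    Continuous (t14_f S O k p κ a) := by
  have h : Continuous fun g : G S O => g k (p, a) :=
    (continuous_apply (p, a)).comp (continuous_apply k)
  exact h.zsmul κ

theorem t14_div (κ : ℤ) (hκ : κ ≠ 0) (x : Tor) : ∃ y : Tor, κ • y = x := by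
  induction x using QuotientAddGroup.induction_on with
  | H r =>
    refine ⟨((r / κ : ℝ) : Tor), ?_⟩
    have h : (κ : ℝ) ≠ 0 := by exact_mod_cast hκ
    rw [← AddCircle.coe_zsmul, zsmul_eq_mul, mul_div_cancel₀ _ h]

theorem t14_surj (S O k : ℕ) (p : Fin (S + 1)) (κ : ℤ) (hκ : κ ≠ 0) (a : Fin (o O k)) :
    Function.Surjective (t14_f S O k p κ a) := by
  intro x
  obtain ⟨y, hy⟩ := t14_div κ hκ x
  exact ⟨fun _ _ => y, hy⟩

theorem t14_surj2 (S O k : ℕ) (p : Fin (S + 1)) (κ : ℤ) (hκ : κ ≠ 0) (a b : Fin (o O k))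
    (hab : a ≠ b) :
    Function.Surjective ((t14_f S O k p κ a).prod (t14_f S O k p κ b)) := by
  rintro ⟨x₁, x₂⟩
  obtain ⟨y₁, hy₁⟩ := t14_div κ hκ x₁
  obtain ⟨y₂, hy₂⟩ := t14_div κ hκ x₂
  refine ⟨fun _ z => if (z.2 : ℕ) = (a : ℕ) then y₁ else y₂, ?_⟩
  rw [AddMonoidHom.prod_apply, t14_f_apply, t14_f_apply]
  have h : (b : ℕ) ≠ (a : ℕ) := fun h => hab (Fin.ext h.symm)
  simp only [if_true, if_neg h, hy₁, hy₂]

theorem t14_o (O k : ℕ) : o O k = 2 ^ k * O := by
  induction k with
  | zero => simp [o]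
  | succ k ih => simp only [o, ih]; ring

theorem t14_cnt_add {ι : Type} [Fintype ι] (x : ι → ℝ) (r : ℝ) :
    cnt (fun i => x i ≤ r) + cnt (fun i => r < x i) = Fintype.card ι := by
  classical
  unfold cnt
  have h := Finset.card_filter_add_card_filter_not (s := (Finset.univ : Finset ι))
    (fun i => x i ≤ r)
  simp only [not_le] at h
  rw [← Nat.cast_add]
  congr 1

/-- T14: nullness. -/
theorem null (P : Par) (O : ℕ) (hO : 0 < O) (κ : ℤ) (hκ : κ ≠ 0) (p : Fin (P.S + 1)) :
    μG P.S O {g | ∀ k, cnt (fun a : Fin (o O k) => P.A < ‖κ • g k (p, a)‖) ≤ P.e * o O k} = 0 := by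
  have : IsProbabilityMeasure (volume : Measure Tor) := ⟨UnitAddCircle.measure_univ⟩
  have key : ∀ k, μG P.S O {g | ∀ k, cnt (fun a : Fin (o O k) => P.A < ‖κ • g k (p, a)‖) ≤
      P.e * o O k} ≤ ENNReal.ofReal (1 / ((1 / 4) ^ 2 * (o O k : ℝ))) := by
    intro k
    have hok : 0 < o O k := by rw [t14_o]; positivity
    have hok' : (0 : ℝ) < o O k := by exact_mod_cast hok
    have h1 := cheb (μG P.S O) (fun a : Fin (o O k) => t14_f P.S O k p κ a)
      (fun a => (t14_cont P.S O k p κ a).measurable)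
      (fun a => map_haar (μG P.S O) volume _ (t14_cont P.S O k p κ a)
        (t14_surj P.S O k p κ hκ a))
      (fun a b hab => map_haar (μG P.S O) ((volume : Measure Tor).prod volume)
        ((t14_f P.S O k p κ a).prod (t14_f P.S O k p κ b))
        ((t14_cont P.S O k p κ a).prodMk (t14_cont P.S O k p κ b))
        (t14_surj2 P.S O k p κ hκ a b hab))
      P.A (1 / 4) P.hA0.le (by linarith [P.hA1]) (by norm_num)
      (by rw [Fintype.card_fin]; exact hok)
    rw [Fintype.card_fin] at h1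
    refine le_trans (measure_mono ?_) h1
    intro g hg
    have h2 := hg k
    have h3 := t14_cnt_add (fun a : Fin (o O k) => ‖κ • g k (p, a)‖) P.A
    rw [Fintype.card_fin] at h3
    have h4 : P.A * o O k ≤ 1 / 8 * o O k := mul_le_mul_of_nonneg_right P.hA1 hok'.le
    have h5 : P.e * o O k ≤ 1 / 4 * o O k := mul_le_mul_of_nonneg_right P.he1 hok'.le
    simp only [Set.mem_ofPred_eq, t14_f_apply]
    refine lt_of_lt_of_le ?_ (le_abs_self _)
    linarith
  have hlim : Tendsto (fun k => ENNReal.ofReal (1 / ((1 / 4) ^ 2 * (o O k : ℝ)))) atTop (𝓝 0) := by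
    rw [← ENNReal.ofReal_zero]
    apply ENNReal.tendsto_ofReal
    apply tendsto_const_nhds.div_atTop
    apply Tendsto.const_mul_atTop (by norm_num)
    have h : (fun k => (o O k : ℝ)) = fun k => (2 : ℝ) ^ k * O := by
      funext k
      rw [t14_o]; push_cast; rfl
    rw [h]
    exact (tendsto_pow_atTop_atTop_of_one_lt one_lt_two).atTop_mul_const (by exact_mod_cast hO)
  exact le_antisymm (ge_of_tendsto' hlim key) zero_le

end Pool.Agent.PolyRec
end
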