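import Mathlib

section

/-!
Van der Corput's lemma in a real Hilbert space.
-/

set_option autoImplicit false

noncomputable section

namespace Pool.Agent.Lib.ShiftRec

open Filter Topology Finset
open scoped InnerProductSpace

/-- Shifting the index changes a sum of bounded terms only a little. -/
lemma norm_sum_shift_le {E : Type*} [NormedAddCommGroup E] (u : ℕ → E) {C : ℝ}
    (hC : ∀ n, ‖u n‖ ≤ C) (k N : ℕ) :
    ‖∑ n ∈ range N, u (n + k) - ∑ n ∈ range N, u n‖ ≤ 2 * k * C := by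
  have hC0 : 0 ≤ C := (norm_nonneg _).trans (hC 0)
  induction k with
  | zero => simp
  | succ k ih =>
    have h1 : ∑ n ∈ range N, u (n + (k + 1)) - ∑ n ∈ range N, u (n + k)
        = u (N + k) - u k := by
      have h2 := Finset.sum_range_succ (fun n => u (n + k)) N
      have h3 := Finset.sum_range_succ' (fun n => u (n + k)) N
      rw [h2] at h3
      have h4 : ∀ n, u (n + 1 + k) = u (n + (k + 1)) := fun n => by congr 1; omega
      simp only [h4, zero_add] at h3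
      rw [sub_eq_sub_iff_add_eq_add, ← h3]
      abel
    have h5 : ∑ n ∈ range N, u (n + (k + 1)) - ∑ n ∈ range N, u n
        = (u (N + k) - u k) + (∑ n ∈ range N, u (n + k) - ∑ n ∈ range N, u n) := by
      rw [← h1]; abel
    rw [h5]
    calc ‖(u (N + k) - u k) + (∑ n ∈ range N, u (n + k) - ∑ n ∈ range N, u n)‖
        ≤ ‖u (N + k) - u k‖ + ‖∑ n ∈ range N, u (n + k) - ∑ n ∈ range N, u n‖ := norm_add_le _ _
      _ ≤ (‖u (N + k)‖ + ‖u k‖) + 2 * k * C := add_le_add (norm_sub_le _ _) ih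
      _ ≤ (C + C) + 2 * k * C := by gcongr <;> exact hC _
      _ = 2 * ((k + 1 : ℕ) : ℝ) * C := by push_cast; ring

/-- Averages tending to zero, for the shifted sequence. -/
lemma tendsto_avg_shift {c : ℕ → ℝ} {D : ℝ} (hD : ∀ n, |c n| ≤ D)
    (h : Tendsto (fun N : ℕ => (N : ℝ)⁻¹ * ∑ n ∈ range N, c n) atTop (𝓝 0)) (l : ℕ) :
    Tendsto (fun N : ℕ => (N : ℝ)⁻¹ * ∑ n ∈ range N, c (n + l)) atTop (𝓝 0) := by
  have h1 : Tendsto (fun N : ℕ => (N : ℝ)⁻¹ * (2 * l * D)) atTop (𝓝 0) := by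
    have := tendsto_inv_atTop_nhds_zero_nat (𝕜 := ℝ)
    simpa using this.mul_const (2 * l * D)
  have h2 : Tendsto (fun N : ℕ => (N : ℝ)⁻¹ * ∑ n ∈ range N, c (n + l)
      - (N : ℝ)⁻¹ * ∑ n ∈ range N, c n) atTop (𝓝 0) := by
    refine squeeze_zero_norm (fun N => ?_) h1
    rw [← mul_sub, norm_mul, Real.norm_of_nonneg (by positivity)]
    refine mul_le_mul_of_nonneg_left ?_ (by positivity)
    exact norm_sum_shift_le c (fun n => by simpa using hD n) l N
  have h3 := h2.add h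
  simpa using h3

variable {H : Type*} [NormedAddCommGroup H] [InnerProductSpace ℝ H]

/-- Off-diagonal correlations. -/
lemma corr_tendsto {u : ℕ → H} {C : ℝ} (hC : ∀ n, ‖u n‖ ≤ C)
    (h : ∀ k, 1 ≤ k → Tendsto (fun N : ℕ => (N : ℝ)⁻¹ * ∑ n ∈ range N, ⟪u (n + k), u n⟫_ℝ)
      atTop (𝓝 0)) (k l : ℕ) (hkl : k ≠ l) :
    Tendsto (fun N : ℕ => (N : ℝ)⁻¹ * ∑ n ∈ range N, ⟪u (n + k), u (n + l)⟫_ℝ) atTop (𝓝 0) := by
  have hb : ∀ j n, |⟪u (n + j), u n⟫_ℝ| ≤ C * C := fun j n =>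
    (abs_real_inner_le_norm _ _).trans
      (mul_le_mul (hC _) (hC _) (norm_nonneg _) ((norm_nonneg _).trans (hC 0)))
  rcases lt_or_gt_of_ne hkl with hlt | hgt
  · have h1 := tendsto_avg_shift (hb (l - k)) (h (l - k) (by omega)) k
    refine h1.congr fun N => ?_
    congr 1
    refine Finset.sum_congr rfl fun n _ => ?_
    rw [real_inner_comm]
    congr 2
    omega
  · have h1 := tendsto_avg_shift (hb (k - l)) (h (k - l) (by omega)) l
    refine h1.congr fun N => ?_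
    congr 1
    refine Finset.sum_congr rfl fun n _ => ?_
    congr 2
    omega

lemma norm_sum_sq_le (v : ℕ → H) (N : ℕ) :
    ‖∑ n ∈ range N, v n‖ ^ 2 ≤ N * ∑ n ∈ range N, ‖v n‖ ^ 2 := by
  have h1 : ‖∑ n ∈ range N, v n‖ ≤ ∑ n ∈ range N, ‖v n‖ := norm_sum_le _ _
  calc ‖∑ n ∈ range N, v n‖ ^ 2 ≤ (∑ n ∈ range N, ‖v n‖) ^ 2 := by gcongr
    _ ≤ (range N).card * ∑ n ∈ range N, ‖v n‖ ^ 2 := sq_sum_le_card_mul_sum_sq
    _ = _ := by rw [card_range]

/-- The basic inequality. -/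
lemma vdc_ineq {u : ℕ → H} {C : ℝ} (hC : ∀ n, ‖u n‖ ≤ C) (K N : ℕ) (hK : 1 ≤ K) (hN : 1 ≤ N) :
    ‖(N : ℝ)⁻¹ • ∑ n ∈ range N, u n‖ ^ 2 ≤ 2 * C ^ 2 / K
      + (2 / K ^ 2 * ∑ k ∈ range K, ∑ l ∈ range K, (if k = l then 0 else
          (N : ℝ)⁻¹ * ∑ n ∈ range N, ⟪u (n + k), u (n + l)⟫_ℝ)
        + 8 * K ^ 2 * C ^ 2 * ((N : ℝ)⁻¹) ^ 2) := by
  have hC0 : 0 ≤ C := (norm_nonneg _).trans (hC 0)
  have hK' : (0 : ℝ) < K := by exact_mod_cast hK
  have hN' : (0 : ℝ) < N := by exact_mod_cast hN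
  set S := ∑ n ∈ range N, u n with hS
  set W := ∑ n ∈ range N, ∑ k ∈ range K, u (n + k) with hW
  -- comparison of `K S` with `W`
  have h1 : ‖W - (K : ℝ) • S‖ ≤ 2 * K ^ 2 * C := by
    have h2 : W - (K : ℝ) • S = ∑ k ∈ range K, (∑ n ∈ range N, u (n + k) - S) := by
      rw [hW, Finset.sum_comm, Finset.sum_sub_distrib]
      simp [Nat.cast_smul_eq_nsmul]
    rw [h2]
    calc ‖∑ k ∈ range K, (∑ n ∈ range N, u (n + k) - S)‖
        ≤ ∑ k ∈ range K, ‖∑ n ∈ range N, u (n + k) - S‖ := norm_sum_le _ _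
      _ ≤ ∑ k ∈ range K, 2 * K * C := by
          refine Finset.sum_le_sum fun k hk => ?_
          refine (norm_sum_shift_le u hC k N).trans ?_
          have : (k : ℝ) ≤ K := by exact_mod_cast (Finset.mem_range.mp hk).le
          gcongr
      _ = 2 * K ^ 2 * C := by
          rw [Finset.sum_const, card_range, nsmul_eq_mul]; ring
  have h3 : (K : ℝ) * ‖S‖ ≤ ‖W‖ + 2 * K ^ 2 * C := by
    have h4 : ‖(K : ℝ) • S‖ ≤ ‖W‖ + ‖W - (K : ℝ) • S‖ := by
      have := norm_sub_le W (W - (K : ℝ) • S)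
      simpa using this
    rw [norm_smul, Real.norm_of_nonneg hK'.le] at h4
    linarith
  have h5 : (K : ℝ) ^ 2 * ‖S‖ ^ 2 ≤ 2 * ‖W‖ ^ 2 + 8 * K ^ 4 * C ^ 2 := by
    have h6 : ((K : ℝ) * ‖S‖) ^ 2 ≤ (‖W‖ + 2 * K ^ 2 * C) ^ 2 := by
      apply pow_le_pow_left₀ (by positivity) h3
    nlinarith [sq_nonneg (‖W‖ - 2 * K ^ 2 * C)]
  -- expansion of the squares
  have h7 : ‖W‖ ^ 2 ≤ N * ∑ n ∈ range N, ‖∑ k ∈ range K, u (n + k)‖ ^ 2 := norm_sum_sq_le _ N
  have h8 : ∑ n ∈ range N, ‖∑ k ∈ range K, u (n + k)‖ ^ 2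
      = ∑ k ∈ range K, ∑ l ∈ range K, ∑ n ∈ range N, ⟪u (n + k), u (n + l)⟫_ℝ := by
    have h9 : ∀ n, ‖∑ k ∈ range K, u (n + k)‖ ^ 2
        = ∑ k ∈ range K, ∑ l ∈ range K, ⟪u (n + k), u (n + l)⟫_ℝ := by
      intro n
      rw [← real_inner_self_eq_norm_sq, sum_inner]
      refine Finset.sum_congr rfl fun k _ => ?_
      rw [inner_sum]
    simp_rw [h9]
    rw [Finset.sum_comm]
    refine Finset.sum_congr rfl fun k _ => ?_
    rw [Finset.sum_comm]
  have h10 : (N : ℝ)⁻¹ * ∑ k ∈ range K, ∑ l ∈ range K, ∑ n ∈ range N, ⟪u (n + k), u (n + l)⟫_ℝ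
      ≤ K * C ^ 2 + ∑ k ∈ range K, ∑ l ∈ range K, (if k = l then 0 else
          (N : ℝ)⁻¹ * ∑ n ∈ range N, ⟪u (n + k), u (n + l)⟫_ℝ) := by
    have h11 : ∀ k ∈ range K, (N : ℝ)⁻¹ * ∑ l ∈ range K, ∑ n ∈ range N, ⟪u (n + k), u (n + l)⟫_ℝ
        ≤ C ^ 2 + ∑ l ∈ range K, (if k = l then 0 else
          (N : ℝ)⁻¹ * ∑ n ∈ range N, ⟪u (n + k), u (n + l)⟫_ℝ) := by
      intro k hk
      rw [Finset.mul_sum]
      have h12 : ∑ l ∈ range K, (N : ℝ)⁻¹ * ∑ n ∈ range N, ⟪u (n + k), u (n + l)⟫_ℝ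
          = (N : ℝ)⁻¹ * ∑ n ∈ range N, ⟪u (n + k), u (n + k)⟫_ℝ
            + ∑ l ∈ range K, (if k = l then 0 else
              (N : ℝ)⁻¹ * ∑ n ∈ range N, ⟪u (n + k), u (n + l)⟫_ℝ) := by
        rw [← Finset.add_sum_erase _ _ hk, ← Finset.add_sum_erase (range K) (fun l =>
          if k = l then (0 : ℝ) else (N : ℝ)⁻¹ * ∑ n ∈ range N, ⟪u (n + k), u (n + l)⟫_ℝ) hk]
        simp only [if_true, zero_add]
        congr 1
        refine Finset.sum_congr rfl fun l hl => ?_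
        rw [if_neg (Finset.ne_of_mem_erase hl).symm]
      rw [h12]
      gcongr
      have h13 : ∑ n ∈ range N, ⟪u (n + k), u (n + k)⟫_ℝ ≤ N * C ^ 2 := by
        calc ∑ n ∈ range N, ⟪u (n + k), u (n + k)⟫_ℝ ≤ ∑ n ∈ range N, C ^ 2 := by
              refine Finset.sum_le_sum fun n _ => ?_
              rw [real_inner_self_eq_norm_sq]
              exact pow_le_pow_left₀ (norm_nonneg _) (hC _) 2
          _ = N * C ^ 2 := by rw [Finset.sum_const, card_range, nsmul_eq_mul]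
      calc (N : ℝ)⁻¹ * ∑ n ∈ range N, ⟪u (n + k), u (n + k)⟫_ℝ ≤ (N : ℝ)⁻¹ * (N * C ^ 2) := by
            gcongr
        _ = C ^ 2 := by field_simp
    rw [Finset.mul_sum]
    calc ∑ k ∈ range K, (N : ℝ)⁻¹ * ∑ l ∈ range K, ∑ n ∈ range N, ⟪u (n + k), u (n + l)⟫_ℝ
        ≤ ∑ k ∈ range K, (C ^ 2 + ∑ l ∈ range K, (if k = l then 0 else
          (N : ℝ)⁻¹ * ∑ n ∈ range N, ⟪u (n + k), u (n + l)⟫_ℝ)) := Finset.sum_le_sum h11
      _ = _ := by
          rw [Finset.sum_add_distrib, Finset.sum_const, card_range, nsmul_eq_mul]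
  set Z := ∑ k ∈ range K, ∑ l ∈ range K, (if k = l then 0 else
          (N : ℝ)⁻¹ * ∑ n ∈ range N, ⟪u (n + k), u (n + l)⟫_ℝ) with hZ
  have h14 : ‖W‖ ^ 2 ≤ N ^ 2 * (K * C ^ 2 + Z) := by
    rw [h8] at h7
    calc ‖W‖ ^ 2 ≤ N * ∑ k ∈ range K, ∑ l ∈ range K, ∑ n ∈ range N, ⟪u (n + k), u (n + l)⟫_ℝ := h7
      _ = N ^ 2 * ((N : ℝ)⁻¹ * ∑ k ∈ range K, ∑ l ∈ range K, ∑ n ∈ range N,
            ⟪u (n + k), u (n + l)⟫_ℝ) := by field_simp
      _ ≤ N ^ 2 * (K * C ^ 2 + Z) := by gcongr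
  have h15 : (K : ℝ) ^ 2 * ‖S‖ ^ 2 ≤ 2 * (N ^ 2 * (K * C ^ 2 + Z)) + 8 * K ^ 4 * C ^ 2 := by
    linarith
  rw [norm_smul, Real.norm_of_nonneg (by positivity), mul_pow]
  have h16 : ((N : ℝ)⁻¹) ^ 2 * ‖S‖ ^ 2 = ((K : ℝ) ^ 2 * ‖S‖ ^ 2) / (K ^ 2 * N ^ 2) := by
    field_simp
  rw [h16, div_le_iff₀ (by positivity)]
  calc (K : ℝ) ^ 2 * ‖S‖ ^ 2 ≤ 2 * (N ^ 2 * (K * C ^ 2 + Z)) + 8 * K ^ 4 * C ^ 2 := h15
    _ = _ := by field_simp; ring

/-- **Van der Corput's lemma.** -/
theorem vdc {u : ℕ → H} {C : ℝ} (hC : ∀ n, ‖u n‖ ≤ C)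
    (h : ∀ k, 1 ≤ k → Tendsto (fun N : ℕ => (N : ℝ)⁻¹ * ∑ n ∈ range N, ⟪u (n + k), u n⟫_ℝ)
      atTop (𝓝 0)) :
    Tendsto (fun N : ℕ => (N : ℝ)⁻¹ • ∑ n ∈ range N, u n) atTop (𝓝 0) := by
  rw [tendsto_zero_iff_norm_tendsto_zero]
  have hsq : Tendsto (fun N : ℕ => ‖(N : ℝ)⁻¹ • ∑ n ∈ range N, u n‖ ^ 2) atTop (𝓝 0) := by
    rw [tendsto_order]
    refine ⟨fun a ha => Eventually.of_forall fun N => ha.trans_le (sq_nonneg _), fun ε hε => ?_⟩
    obtain ⟨K, hK⟩ := exists_nat_gt (4 * C ^ 2 / ε)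
    have hK0 : (0 : ℝ) ≤ 4 * C ^ 2 / ε := by positivity
    have hK1 : 1 ≤ K := by
      have : (0 : ℝ) < K := hK0.trans_lt hK
      exact_mod_cast this
    have hK' : (0 : ℝ) < K := by exact_mod_cast hK1
    have h1 : 2 * C ^ 2 / K < ε / 2 := by
      rw [div_lt_iff₀ hε] at hK
      rw [div_lt_iff₀ hK']
      nlinarith
    have h2 : Tendsto (fun N : ℕ => 2 / (K : ℝ) ^ 2 * ∑ k ∈ range K, ∑ l ∈ range K,
        (if k = l then 0 else (N : ℝ)⁻¹ * ∑ n ∈ range N, ⟪u (n + k), u (n + l)⟫_ℝ)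
        + 8 * K ^ 2 * C ^ 2 * ((N : ℝ)⁻¹) ^ 2) atTop (𝓝 (2 / (K : ℝ) ^ 2 *
          ∑ k ∈ range K, ∑ l ∈ range K, (0 : ℝ) + 8 * K ^ 2 * C ^ 2 * 0 ^ 2)) := by
      refine Tendsto.add ?_ ?_
      · refine Tendsto.const_mul _ ?_
        refine tendsto_finsetSum _ fun k _ => tendsto_finsetSum _ fun l _ => ?_
        by_cases hkl : k = l
        · simp only [hkl, if_true]
          exact tendsto_const_nhds
        · simp only [hkl, if_false]
          exact corr_tendsto hC h k l hkl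
      · exact (tendsto_inv_atTop_nhds_zero_nat.pow 2).const_mul _
    have h3 : (2 / (K : ℝ) ^ 2 * ∑ k ∈ range K, ∑ l ∈ range K, (0 : ℝ)
        + 8 * K ^ 2 * C ^ 2 * 0 ^ 2) = 0 := by simp
    rw [h3] at h2
    filter_upwards [h2.eventually_lt_const (half_pos hε), eventually_ge_atTop 1] with N hN hN1
    calc ‖(N : ℝ)⁻¹ • ∑ n ∈ range N, u n‖ ^ 2 ≤ _ := vdc_ineq hC K N hK1 hN1
      _ < ε / 2 + ε / 2 := by linarith
      _ = ε := by ring
  have := hsq.sqrt
  simpa using this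

end Pool.Agent.Lib.ShiftRec

end
end

section

/-!
The mean ergodic theorem along polynomials, for vectors orthogonal to all vectors fixed by a
power of the isometry.
-/

set_option autoImplicit false

noncomputable section

namespace Pool.Agent.Lib.ShiftRec

open Filter Topology Finset Polynomial
open scoped InnerProductSpace

variable {H : Type*} [NormedAddCommGroup H] [InnerProductSpace ℝ H]

/-- A unitary representation of `ℤ`. -/
structure IsRep (U : ℤ → H →ₗᵢ[ℝ] H) : Prop where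
  zero : ∀ x, U 0 x = x
  add : ∀ k l x, U (k + l) x = U k (U l x)

/-- `f` is orthogonal to the vectors fixed by `U k`, `k ≠ 0`. -/
def OrthRat (U : ℤ → H →ₗᵢ[ℝ] H) (f : H) : Prop :=
  ∀ k : ℤ, k ≠ 0 → ∀ g, U k g = g → ⟪f, g⟫_ℝ = 0

lemma IsRep.iterate {U : ℤ → H →ₗᵢ[ℝ] H} (hU : IsRep U) (b : ℤ) (n : ℕ) (x : H) :
    (U b)^[n] x = U (b * n) x := by
  induction n with
  | zero => simp [hU.zero]
  | succ n ih =>
    rw [Function.iterate_succ_apply', ih, ← hU.add]
    congr 2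
    push_cast
    ring

lemma IsRep.inner_add {U : ℤ → H →ₗᵢ[ℝ] H} (hU : IsRep U) (k l : ℤ) (x y : H) :
    ⟪U (k + l) x, U l y⟫_ℝ = ⟪U k x, y⟫_ℝ := by
  rw [add_comm, hU.add, LinearIsometry.inner_map_map]

/-- The mean ergodic theorem along `n ↦ b n + c`. -/
lemma linear_ergodic [CompleteSpace H] {U : ℤ → H →ₗᵢ[ℝ] H} (hU : IsRep U) {f : H}
    (hf : OrthRat U f) (b c : ℤ) (hb : b ≠ 0) :
    Tendsto (fun N : ℕ => (N : ℝ)⁻¹ • ∑ n ∈ range N, U (b * n + c) f) atTop (𝓝 0) := by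
  have h1 := ContinuousLinearMap.tendsto_birkhoffAverage_orthogonalProjection
    (U b).toContinuousLinearMap (U b).norm_toContinuousLinearMap_le f
  have h2 : ((U b).toContinuousLinearMap.eqLocus
      (1 : H →L[ℝ] H)).orthogonalProjectionOnto f = 0 := by
    rw [Submodule.orthogonalProjectionOnto_eq_zero_iff]
    rw [Submodule.mem_orthogonal]
    intro g hg
    rw [real_inner_comm]
    exact hf b hb g hg
  rw [h2] at h1
  have h3 := ((U c).continuous.tendsto _).comp h1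
  simp only [Submodule.coe_zero, map_zero] at h3
  refine h3.congr fun N => ?_
  simp only [Function.comp_apply, birkhoffAverage, birkhoffSum]
  rw [map_smul, map_sum]
  congr 1
  refine Finset.sum_congr rfl fun n _ => ?_
  have h4 : (⇑(U b).toContinuousLinearMap)^[n] f = (U b)^[n] f := rfl
  simp only [id]
  rw [h4, hU.iterate, ← hU.add]
  congr 2
  ring

/-- Integer sequences with `d`-th differences of degree one. -/
def IsPolySeq : ℕ → (ℕ → ℤ) → Prop
  | 0, s => ∃ b c : ℤ, b ≠ 0 ∧ ∀ n : ℕ, s n = b * n + c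
  | d + 1, s => ∀ h : ℕ, 1 ≤ h → IsPolySeq d (fun n => s (n + h) - s n)

/-- The mean ergodic theorem along polynomial sequences. -/
theorem poly_ergodic [CompleteSpace H] {U : ℤ → H →ₗᵢ[ℝ] H} (hU : IsRep U) {f : H}
    (hf : OrthRat U f) (d : ℕ) : ∀ s : ℕ → ℤ, IsPolySeq d s →
    Tendsto (fun N : ℕ => (N : ℝ)⁻¹ • ∑ n ∈ range N, U (s n) f) atTop (𝓝 0) := by
  induction d with
  | zero =>
    rintro s ⟨b, c, hb, hs⟩
    simp_rw [hs]
    exact linear_ergodic hU hf b c hb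
  | succ d ih =>
    intro s hs
    refine vdc (C := ‖f‖) (fun n => by simp) fun k hk => ?_
    have h1 := ih _ (hs k hk)
    have h2 : Tendsto (fun N : ℕ => ⟪(N : ℝ)⁻¹ • ∑ n ∈ range N, U (s (n + k) - s n) f, f⟫_ℝ)
        atTop (𝓝 0) := by
      have := h1.inner (𝕜 := ℝ) (tendsto_const_nhds (x := f))
      simpa using this
    refine h2.congr fun N => ?_
    rw [inner_smul_left, sum_inner]
    simp only [conj_trivial]
    congr 1
    refine Finset.sum_congr rfl fun n _ => ?_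
    rw [← hU.inner_add (s (n + k) - s n) (s n) f f]
    congr 3
    ring

/-- Polynomials give such sequences. -/
lemma isPolySeq_of_natDegree (d : ℕ) : ∀ p : ℤ[X], p.natDegree = d + 1 →
    IsPolySeq d (fun n => p.eval (n : ℤ)) := by
  induction d with
  | zero =>
    intro p hp
    refine ⟨p.coeff 1, p.coeff 0, ?_, fun n => ?_⟩
    · have h1 : p.leadingCoeff ≠ 0 := by
        rw [Polynomial.leadingCoeff_ne_zero]
        intro h
        rw [h] at hp
        simp at hp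
      rwa [Polynomial.leadingCoeff, hp] at h1
    · conv_lhs => rw [Polynomial.eq_X_add_C_of_natDegree_le_one (p := p) (by omega)]
      simp
  | succ d ih =>
    intro p hp h hh
    have hp0 : p ≠ 0 := by
      intro h0
      rw [h0] at hp
      simp at hp
    have e : (fun n : ℕ => p.eval ((n + h : ℕ) : ℤ) - p.eval (n : ℤ))
        = fun n : ℕ => (taylor (h : ℤ) p - p).eval (n : ℤ) := by
      funext n
      rw [eval_sub, taylor_eval]
      push_cast
      ring_nf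
    change IsPolySeq d (fun n : ℕ => p.eval ((n + h : ℕ) : ℤ) - p.eval (n : ℤ))
    rw [e]
    apply ih
    -- the degree
    have hcoeff : (taylor (h : ℤ) p - p).coeff (d + 1) ≠ 0 := by
      rw [coeff_sub, taylor_coeff]
      have h1 : hasseDeriv (d + 1) p = C (p.coeff (d + 1)) + C (((d + 2 : ℕ) : ℤ)
          * p.coeff (d + 2)) * X := by
        ext n
        rw [hasseDeriv_coeff]
        rcases n with _ | _ | n
        · simp
        · simp only [coeff_add, coeff_C_mul, coeff_X, coeff_C]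
          rw [show 0 + 1 + (d + 1) = d + 2 by ring]
          simp [Nat.choose_succ_self_right]
          left
          ring
        · rw [coeff_eq_zero_of_natDegree_lt (by omega), coeff_add, coeff_C_mul, coeff_X,
            coeff_C, if_neg (by omega), if_neg (by omega)]
          simp
      rw [h1]
      simp only [eval_add, eval_C, eval_mul, eval_X]
      have h2 : p.coeff (d + 2) ≠ 0 := by
        have : p.leadingCoeff ≠ 0 := leadingCoeff_ne_zero.mpr hp0
        rwa [leadingCoeff, hp] at this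
      have h3 : (h : ℤ) ≠ 0 := by exact_mod_cast (by omega : h ≠ 0)
      have h4 : ((d + 2 : ℕ) : ℤ) ≠ 0 := by exact_mod_cast (by omega : d + 2 ≠ 0)
      rw [add_sub_cancel_left]
      exact mul_ne_zero (mul_ne_zero h4 h2) h3
    have hle : (taylor (h : ℤ) p - p).natDegree ≤ d + 1 := by
      rw [natDegree_le_iff_coeff_eq_zero]
      intro N hN
      rcases Nat.lt_or_ge N (d + 3) with h1 | h1
      · have hN' : N = d + 2 := by omega
        subst hN'
        rw [coeff_sub, taylor_coeff]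
        have h2 : hasseDeriv (d + 2) p = C (p.coeff (d + 2)) := by
          ext n
          rw [hasseDeriv_coeff]
          rcases n with _ | n
          · simp
          · rw [coeff_eq_zero_of_natDegree_lt (by omega), coeff_C, if_neg (by omega)]
            simp
        rw [h2]
        simp
      · apply coeff_eq_zero_of_natDegree_lt
        refine (natDegree_sub_le _ _).trans_lt ?_
        rw [natDegree_taylor, hp]
        simp
        omega
    exact le_antisymm hle (le_natDegree_of_ne_zero hcoeff)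

end Pool.Agent.Lib.ShiftRec

end
end

section

/-!
Projections of indicator functions on invariant functions, and the inequality
`∫_A g₁ g₂ ≥ μ(A)³`.
-/

set_option autoImplicit false

noncomputable section

namespace Pool.Agent.Lib.ShiftRec

open Filter Topology Finset MeasureTheory
open scoped InnerProductSpace

section Hilbert

variable {H : Type*} [NormedAddCommGroup H] [InnerProductSpace ℝ H] [CompleteSpace H]

/-- The space of fixed vectors. -/
def fixSp (V : H →ₗᵢ[ℝ] H) : Submodule ℝ H :=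
  V.toContinuousLinearMap.eqLocus (1 : H →L[ℝ] H)

lemma mem_fixSp {V : H →ₗᵢ[ℝ] H} {g : H} : g ∈ fixSp V ↔ V g = g := Iff.rfl

instance instCompleteFix (V : H →ₗᵢ[ℝ] H) : CompleteSpace (fixSp V) :=
  inferInstanceAs (CompleteSpace (V.toContinuousLinearMap.eqLocus (1 : H →L[ℝ] H)))

/-- The projection on the fixed vectors. -/
def fixP (V : H →ₗᵢ[ℝ] H) (x : H) : H := (fixSp V).starProjection x

lemma fixP_fixed (V : H →ₗᵢ[ℝ] H) (x : H) : V (fixP V x) = fixP V x :=
  mem_fixSp.mp ((fixSp V).starProjection_apply_mem x)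

lemma fixP_orth (V : H →ₗᵢ[ℝ] H) (x : H) {g : H} (hg : V g = g) : ⟪x, g⟫_ℝ = ⟪fixP V x, g⟫_ℝ := by
  have := (fixSp V).starProjection_inner_eq_zero x g (mem_fixSp.mpr hg)
  rw [inner_sub_left, sub_eq_zero] at this
  exact this

lemma mean_ergodic (V : H →ₗᵢ[ℝ] H) (x : H) :
    Tendsto (fun N : ℕ => (N : ℝ)⁻¹ • ∑ n ∈ range N, V^[n] x) atTop (𝓝 (fixP V x)) :=
  ContinuousLinearMap.tendsto_birkhoffAverage_orthogonalProjection
    V.toContinuousLinearMap V.norm_toContinuousLinearMap_le x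

end Hilbert

variable {α : Type*} [MeasurableSpace α] {μ : Measure α} [IsProbabilityMeasure μ]

/-- The Koopman operator of a measure preserving map. -/
def koopman (φ : α → α) (hφ : MeasurePreserving φ μ μ) : Lp ℝ 2 μ →ₗᵢ[ℝ] Lp ℝ 2 μ :=
  Lp.compMeasurePreservingₗᵢ ℝ φ hφ

lemma koopman_coe {φ : α → α} (hφ : MeasurePreserving φ μ μ) (g : Lp ℝ 2 μ) :
    koopman φ hφ g =ᵐ[μ] g ∘ φ :=
  Lp.coeFn_compMeasurePreserving g hφ

/-- The indicator function as an element of `L²`. -/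
def ind (μ : Measure α) [IsProbabilityMeasure μ] {A : Set α} (hA : MeasurableSet A) : Lp ℝ 2 μ :=
  indicatorConstLp 2 hA (measure_ne_top μ A) (1 : ℝ)

lemma memLp_comp (g : Lp ℝ 2 μ) {ψ : ℝ → ℝ} (hψ : Measurable ψ) {C : ℝ} (hC : ∀ t, |ψ t| ≤ C) :
    MemLp (fun x => ψ (g x)) 2 μ := by
  refine MemLp.of_bound (hψ.comp (Lp.stronglyMeasurable g).measurable).aestronglyMeasurable C ?_
  exact Eventually.of_forall fun x => hC _

/-- Functions of a fixed vector are fixed vectors. -/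
lemma fixed_comp {φ : α → α} (hφ : MeasurePreserving φ μ μ) {g : Lp ℝ 2 μ}
    (hg : koopman φ hφ g = g) {ψ : ℝ → ℝ} (hψ : Measurable ψ) {C : ℝ} (hC : ∀ t, |ψ t| ≤ C) :
    koopman φ hφ ((memLp_comp g hψ hC).toLp _) = (memLp_comp g hψ hC).toLp _ := by
  apply Lp.ext
  have h1 := koopman_coe hφ ((memLp_comp g hψ hC).toLp _)
  have h2 := (memLp_comp g hψ hC).coeFn_toLp
  have h3 := hφ.quasiMeasurePreserving.ae_eq_comp h2
  have h4 := koopman_coe hφ g
  rw [hg] at h4
  filter_upwards [h1, h2, h3, h4] with x h1 h2 h3 h4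
  rw [h1, h2, h3]
  simp only [Function.comp_apply] at h4 ⊢
  rw [h4]

variable {A : Set α} (hA : MeasurableSet A)

/-- Testing against functions of the projection. -/
lemma test_fixP {φ : α → α} (hφ : MeasurePreserving φ μ μ) {ψ : ℝ → ℝ} (hψ : Measurable ψ)
    {C : ℝ} (hC : ∀ t, |ψ t| ≤ C) :
    ∫ x in A, ψ (fixP (koopman φ hφ) (ind μ hA) x) ∂μ
      = ∫ x, fixP (koopman φ hφ) (ind μ hA) x * ψ (fixP (koopman φ hφ) (ind μ hA) x) ∂μ := by
  set g := fixP (koopman φ hφ) (ind μ hA) with hg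
  have hfix : koopman φ hφ g = g := fixP_fixed _ _
  have h1 := fixP_orth (koopman φ hφ) (ind μ hA) (fixed_comp hφ hfix hψ hC)
  rw [← hg] at h1
  have h2 := (memLp_comp g hψ hC).coeFn_toLp
  rw [ind, L2.inner_indicatorConstLp_one, L2.inner_def] at h1
  rw [setIntegral_congr_ae (g := fun x => ψ (g x)) hA (h2.mono fun x hx _ => hx)] at h1
  rw [h1]
  refine integral_congr_ae (h2.mono fun x hx => ?_)
  simp only [hx]
  simp [mul_comm]

lemma fixP_nonneg {φ : α → α} (hφ : MeasurePreserving φ μ μ) :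
    ∀ᵐ x ∂μ, 0 ≤ fixP (koopman φ hφ) (ind μ hA) x := by
  set g := fixP (koopman φ hφ) (ind μ hA) with hg
  let ψ : ℝ → ℝ := Set.indicator (Set.Iio 0) (fun _ => (1 : ℝ))
  have hψ : Measurable ψ := measurable_const.indicator measurableSet_Iio
  have hψC : ∀ t, |ψ t| ≤ 1 := by
    intro t
    by_cases ht : t < 0
    · simp [ψ, ht]
    · simp [ψ, ht]
  have h1 := test_fixP hA hφ hψ hψC
  rw [← hg] at h1
  have h2 : 0 ≤ ∫ x in A, ψ (g x) ∂μ := by
    refine integral_nonneg fun x => ?_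
    exact Set.indicator_nonneg (fun _ _ => zero_le_one) _
  have h3 : ∀ x, g x * ψ (g x) ≤ 0 := by
    intro x
    by_cases hx : g x < 0
    · simp only [ψ, Set.indicator_of_mem (Set.mem_Iio.mpr hx), mul_one]
      exact hx.le
    · have : g x ∉ Set.Iio (0 : ℝ) := hx
      simp only [ψ, Set.indicator_of_notMem this, mul_zero, le_refl]
  have hint : Integrable (fun x => g x * ψ (g x)) μ := by
    have hgi : Integrable g μ := (Lp.memLp g).integrable (by norm_num)
    refine hgi.mul_bdd (c := 1) (hψ.comp (Lp.stronglyMeasurable g).measurable).aestronglyMeasurable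
      (Eventually.of_forall fun x => by simpa using hψC _)
  have h4 : ∫ x, g x * ψ (g x) ∂μ = 0 := by
    apply le_antisymm (integral_nonpos h3)
    rw [← h1]
    exact h2
  have h5 : (fun x => -(g x * ψ (g x))) =ᵐ[μ] 0 := by
    have hneg : Integrable (fun x => -(g x * ψ (g x))) μ := hint.neg
    rw [← integral_eq_zero_iff_of_nonneg (fun x => by simpa using h3 x) hneg, integral_neg, h4,
      neg_zero]
  filter_upwards [h5] with x hx
  by_contra hc
  push Not at hc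
  simp only [Pi.zero_apply, ψ, Set.indicator_of_mem (Set.mem_Iio.mpr hc), mul_one] at hx
  linarith

lemma fixP_inv {φ : α → α} (hφ : MeasurePreserving φ μ μ) {η : ℝ} (hη : 0 < η) :
    ∫ x in A, (max (fixP (koopman φ hφ) (ind μ hA) x) 0 + η)⁻¹ ∂μ ≤ 1 := by
  set g := fixP (koopman φ hφ) (ind μ hA) with hg
  let ψ : ℝ → ℝ := fun t => (max t 0 + η)⁻¹
  have hψ : Measurable ψ := by
    have : Measurable fun t : ℝ => max t 0 + η := (measurable_id.max measurable_const).add_const _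
    exact this.inv
  have hψC : ∀ t, |ψ t| ≤ η⁻¹ := by
    intro t
    have h1 : 0 ≤ max t 0 := le_max_right _ _
    simp only [ψ]
    rw [abs_of_nonneg (by positivity)]
    exact inv_anti₀ hη (by linarith)
  have h1 := test_fixP hA hφ hψ hψC
  rw [← hg] at h1
  change ∫ x in A, ψ (g x) ∂μ ≤ 1
  rw [h1]
  have h2 : ∀ x, g x * ψ (g x) ≤ 1 := by
    intro x
    have h3 : 0 ≤ max (g x) 0 := le_max_right _ _
    have h4 : g x ≤ max (g x) 0 := le_max_left _ _
    simp only [ψ]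
    rw [← div_eq_mul_inv, div_le_one (by positivity)]
    linarith
  have hint : Integrable (fun x => g x * ψ (g x)) μ := by
    have hgi : Integrable g μ := (Lp.memLp g).integrable (by norm_num)
    exact hgi.mul_bdd (c := η⁻¹) (hψ.comp (Lp.stronglyMeasurable g).measurable).aestronglyMeasurable
      (Eventually.of_forall fun x => by simpa using hψC _)
  calc ∫ x, g x * ψ (g x) ∂μ ≤ ∫ _, (1 : ℝ) ∂μ :=
        integral_mono hint (integrable_const _) h2
    _ = 1 := by simp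

lemma integral_add3 {ν : Measure α} {f g h : α → ℝ} (hf : Integrable f ν) (hg : Integrable g ν)
    (hh : Integrable h ν) : ∫ x, (f x + g x + h x) ∂ν = ∫ x, f x ∂ν + ∫ x, g x ∂ν + ∫ x, h x ∂ν := by
  have h1 : Integrable (fun x => f x + g x) ν := hf.add hg
  rw [integral_add h1 hh, integral_add hf hg]

lemma amgm_aux {u v t : ℝ} (hu : 0 < u) (hv : 0 < v) (ht : 0 < t) :
    3 / t ≤ u * v / t ^ 3 + u⁻¹ + v⁻¹ := by
  have key : ∀ p q : ℝ, 0 < p → 0 < q → 3 ≤ p * q + p⁻¹ + q⁻¹ := by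
    intro p q hp hq
    have hpq : 0 < p * q := mul_pos hp hq
    obtain ⟨s, hs, hs2⟩ : ∃ s : ℝ, 0 < s ∧ s ^ 2 = p * q :=
      ⟨√(p * q), Real.sqrt_pos.mpr hpq, Real.sq_sqrt hpq.le⟩
    have h2 : 2 * s ≤ p + q := by
      have : (2 * s) ^ 2 ≤ (p + q) ^ 2 := by nlinarith [sq_nonneg (p - q)]
      exact (pow_le_pow_iff_left₀ (by positivity) (by positivity) two_ne_zero).mp this
    have h3 : p⁻¹ + q⁻¹ = (p + q) / (p * q) := by field_simp; ring
    rw [add_assoc, h3, ← sub_nonneg]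
    have h4 : p * q + (p + q) / (p * q) - 3 = ((p * q) ^ 2 + (p + q) - 3 * (p * q)) / (p * q) := by
      field_simp
    rw [h4]
    apply div_nonneg _ hpq.le
    rw [← hs2]
    nlinarith [mul_nonneg hs.le (mul_nonneg (sq_nonneg (s - 1)) (by linarith : (0 : ℝ) ≤ s + 2))]
  have h := key (u / t) (v / t) (by positivity) (by positivity)
  have e1 : u * v / t ^ 3 + u⁻¹ + v⁻¹ = (u / t * (v / t) + (u / t)⁻¹ + (v / t)⁻¹) / t := by
    field_simp
  rw [e1]
  gcongr

lemma setIntegral_le_one (g : Lp ℝ 2 μ) (hg : ‖g‖ ≤ 1) (B : Set α) (hB : MeasurableSet B) :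
    ∫ x in B, g x ∂μ ≤ 1 := by
  rw [← L2.inner_indicatorConstLp_one (𝕜 := ℝ) hB (measure_ne_top μ B) g]
  calc ⟪indicatorConstLp 2 hB (measure_ne_top μ B) (1 : ℝ), g⟫_ℝ
      ≤ ‖indicatorConstLp 2 hB (measure_ne_top μ B) (1 : ℝ)‖ * ‖g‖ := real_inner_le_norm _ _
    _ ≤ 1 * 1 := by
        gcongr
        rw [norm_indicatorConstLp (by norm_num) (by norm_num)]
        simp only [norm_one, one_mul]
        apply Real.rpow_le_one measureReal_nonneg measureReal_le_one
        norm_num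
    _ = 1 := one_mul _

/-- **The inequality** `∫_A E(1_A|𝓘₁) E(1_A|𝓘₂) ≥ μ(A)³`. -/
theorem chu {φ₁ φ₂ : α → α} (h₁ : MeasurePreserving φ₁ μ μ) (h₂ : MeasurePreserving φ₂ μ μ) :
    (μ.real A) ^ 3 ≤ ∫ x in A, fixP (koopman φ₁ h₁) (ind μ hA) x
      * fixP (koopman φ₂ h₂) (ind μ hA) x ∂μ := by
  set g₁ := fixP (koopman φ₁ h₁) (ind μ hA) with hg₁
  set g₂ := fixP (koopman φ₂ h₂) (ind μ hA) with hg₂
  set c := μ.real A with hc
  have hc0 : 0 ≤ c := measureReal_nonneg
  have hn₁ := fixP_nonneg hA h₁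
  have hn₂ := fixP_nonneg hA h₂
  rw [← hg₁] at hn₁
  rw [← hg₂] at hn₂
  have hnorm : ∀ (φ : α → α) (hφ : MeasurePreserving φ μ μ),
      ‖fixP (koopman φ hφ) (ind μ hA)‖ ≤ 1 := by
    intro φ hφ
    refine ((fixSp (koopman φ hφ)).norm_starProjection_apply_le _).trans ?_
    rw [ind, norm_indicatorConstLp (by norm_num) (by norm_num)]
    simp only [norm_one, one_mul]
    apply Real.rpow_le_one measureReal_nonneg measureReal_le_one
    norm_num
  have hprod : Integrable (fun x => g₁ x * g₂ x) μ := by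
    have := L2.integrable_inner (𝕜 := ℝ) g₂ g₁
    refine this.congr (Eventually.of_forall fun x => ?_)
    simp
  have hi₁ : Integrable g₁ μ := (Lp.memLp g₁).integrable (by norm_num)
  have hi₂ : Integrable g₂ μ := (Lp.memLp g₂).integrable (by norm_num)
  rcases hc0.eq_or_lt with hc0' | hcpos
  · rw [← hc0']
    norm_num
    refine setIntegral_nonneg_ae hA ?_
    filter_upwards [hn₁, hn₂] with x hx hy _
    exact mul_nonneg hx hy
  refine le_of_forall_pos_le_add fun ε hε => ?_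
  obtain ⟨η, hη, hη1, hη2⟩ : ∃ η : ℝ, 0 < η ∧ η ≤ 1 ∧ 3 * η ≤ ε := by
    refine ⟨min 1 (ε / 3), by positivity, min_le_left _ _, ?_⟩
    have := min_le_right (1 : ℝ) (ε / 3)
    linarith
  set J := ∫ x in A, (g₁ x + η) * (g₂ x + η) ∂μ with hJ
  have hJi : IntegrableOn (fun x => (g₁ x + η) * (g₂ x + η)) A μ := by
    have : Integrable (fun x => g₁ x * g₂ x + (η * g₁ x + η * g₂ x + η ^ 2)) μ :=
      hprod.add (((hi₁.const_mul η).add (hi₂.const_mul η)).add (integrable_const _))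
    refine (this.congr (Eventually.of_forall fun x => ?_)).integrableOn
    simp only
    ring
  have hJ1 : J ≤ (∫ x in A, g₁ x * g₂ x ∂μ) + 3 * η := by
    have e : J = (∫ x in A, g₁ x * g₂ x ∂μ) + (η * ∫ x in A, g₁ x ∂μ) + (η * ∫ x in A, g₂ x ∂μ
        + η ^ 2 * c) := by
      have e2 : η ^ 2 * c = ∫ _ in A, η ^ 2 ∂μ := by
        rw [setIntegral_const, smul_eq_mul, mul_comm]
      have i4 : Integrable (fun x => η * g₂ x) (μ.restrict A) := (hi₂.const_mul η).integrableOn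
      have i5 : Integrable (fun x => η * g₂ x + η ^ 2) (μ.restrict A) :=
        i4.add (integrable_const _)
      rw [hJ, ← integral_const_mul, ← integral_const_mul, e2,
        ← integral_add i4 (integrable_const _),
        ← integral_add3 hprod.integrableOn (hi₁.const_mul η).integrableOn i5]
      refine integral_congr_ae (Eventually.of_forall fun x => ?_)
      simp only
      ring
    have b1 := setIntegral_le_one g₁ (hnorm _ h₁) A hA
    have b2 := setIntegral_le_one g₂ (hnorm _ h₂) A hA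
    have b3 : c ≤ 1 := measureReal_le_one
    rw [e]
    nlinarith
  have hinv1 : ∫ x in A, (g₁ x + η)⁻¹ ∂μ ≤ 1 := by
    have := fixP_inv hA h₁ hη
    refine le_trans (le_of_eq ?_) this
    refine setIntegral_congr_ae hA ?_
    filter_upwards [hn₁] with x hx _
    rw [max_eq_left hx]
  have hinv2 : ∫ x in A, (g₂ x + η)⁻¹ ∂μ ≤ 1 := by
    have := fixP_inv hA h₂ hη
    refine le_trans (le_of_eq ?_) this
    refine setIntegral_congr_ae hA ?_
    filter_upwards [hn₂] with x hx _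
    rw [max_eq_left hx]
  have hii : ∀ g : Lp ℝ 2 μ, (∀ᵐ x ∂μ, 0 ≤ g x) → IntegrableOn (fun x => (g x + η)⁻¹) A μ := by
    intro g hg
    refine Integrable.integrableOn ?_
    refine Integrable.of_bound (C := η⁻¹) ?_ ?_
    · exact ((Lp.stronglyMeasurable g).measurable.add_const η).inv.aestronglyMeasurable
    · filter_upwards [hg] with x hx
      rw [Real.norm_of_nonneg (by positivity)]
      exact inv_anti₀ hη (by linarith)
  have hmain : ∫ _ in A, 3 / c ∂μ
      ≤ ∫ x in A, ((g₁ x + η) * (g₂ x + η) / c ^ 3 + (g₁ x + η)⁻¹ + (g₂ x + η)⁻¹) ∂μ := by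
    refine setIntegral_mono_ae (integrable_const _)
      (((hJi.div_const _).add (hii g₁ hn₁)).add (hii g₂ hn₂)) ?_
    filter_upwards [hn₁, hn₂] with x hx hy
    exact amgm_aux (by linarith) (by linarith) hcpos
  have hJd : IntegrableOn (fun x => (g₁ x + η) * (g₂ x + η) / c ^ 3) A μ := hJi.div_const _
  rw [setIntegral_const, smul_eq_mul, ← hc, integral_add3 hJd (hii g₁ hn₁) (hii g₂ hn₂),
    integral_div, ← hJ] at hmain
  have h3 : c * (3 / c) = 3 := by field_simp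
  rw [h3] at hmain
  have h4 : 1 ≤ J / c ^ 3 := by linarith
  rw [le_div_iff₀ (by positivity)] at h4
  linarith

end Pool.Agent.Lib.ShiftRec

end
end
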